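import Pool.Agent.PWU.Pt

/-!
# PWU FIN: the uniform theorem on good intervals
-/

set_option autoImplicit false

open Complex Finset Filter Topology MeasureTheory

namespace Pool.PWU

open Pool.PWE

theorem main : ∃ c K : ℝ, 0 < c ∧ 0 < K ∧ ∀ X T : ℝ, K ≤ X → Real.log X ^ K ≤ T → T ≤ X →
    ∃ y : ℝ, X ≤ y ∧ y ≤ X * T ∧ ∀ x : ℝ, y ≤ x → x ≤ y + y / T →
      |E x| ≤ x ^ (1 / 6 : ℝ) * T ^ (-c) := by
  obtain ⟨K1, hK1, hpt⟩ := pt
  obtain ⟨C, hC, hosc⟩ := E_osc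
  obtain ⟨K, hK⟩ : ∃ K : ℝ, K = 20 * K1 + 120000 + Real.exp (1 + C) := ⟨_, rfl⟩
  have hexp := Real.exp_pos (1 + C)
  refine ⟨1 / 5000, K, by norm_num, by linarith, fun X T hX hT1 hT2 => ?_⟩
  have hX0 : 0 < X := by linarith
  have hX1 : 1 ≤ X := by linarith
  have hℓC : 1 + C ≤ Real.log X := by
    rw [Real.le_log_iff_exp_le hX0]
    linarith
  have hℓ1 : 1 ≤ Real.log X := by linarith
  have hT0 : 0 < T := lt_of_lt_of_le (by positivity) hT1
  have hT1' : 1 ≤ T := le_trans (Real.one_le_rpow hℓ1 (by linarith)) hT1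
  obtain ⟨T', hT'⟩ : ∃ T' : ℝ, T' = T ^ (1 / 20 : ℝ) := ⟨_, rfl⟩
  have hT'0 : 0 < T' := by rw [hT']; positivity
  have hT'1 : 1 ≤ T' := by rw [hT']; exact Real.one_le_rpow hT1' (by norm_num)
  have hT'T : T' ≤ T := by
    rw [hT']
    have h1 := Real.rpow_le_rpow_of_exponent_le hT1' (show (1 / 20 : ℝ) ≤ 1 by norm_num)
    rwa [Real.rpow_one] at h1
  have hT'X : T' ≤ X ^ (1 / 20 : ℝ) := by
    rw [hT']
    exact Real.rpow_le_rpow hT0.le hT2 (by norm_num)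
  have hlogT' : Real.log X ^ K1 ≤ T' := by
    have h1 : (Real.log X ^ K) ^ (1 / 20 : ℝ) ≤ T' := by
      rw [hT']
      exact Real.rpow_le_rpow (by positivity) hT1 (by norm_num)
    rw [← Real.rpow_mul (by linarith)] at h1
    exact (Real.rpow_le_rpow_of_exponent_le hℓ1 (by linarith)).trans h1
  obtain ⟨y, hy1, hy2, hy3⟩ := hpt X T' (by linarith) hlogT' hT'X
  refine ⟨y, hy1, hy2.trans (mul_le_mul_of_nonneg_left hT'T hX0.le), fun x hx1 hx2 => ?_⟩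
  have hy0 : 0 < y := by linarith
  have hy1' : 1 ≤ y := by linarith
  have hT'y : T' ≤ y ^ (1 / 6 : ℝ) := by
    refine hT'X.trans ?_
    refine (Real.rpow_le_rpow_of_exponent_le hX1 (show (1 / 20 : ℝ) ≤ 1 / 6 by norm_num)).trans ?_
    exact Real.rpow_le_rpow hX0.le hy1 (by norm_num)
  have hh : x - y ≤ y / T' := by
    have h1 : y / T ≤ y / T' := div_le_div_of_nonneg_left hy0.le hT'0 hT'T
    linarith
  have h1 := hosc y T' (x - y) hy1' hT'1 hT'y (by linarith) hh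
  rw [add_sub_cancel] at h1
  have h2 : |E x| ≤ |E y| + |E x - E y| := by
    have := abs_add_le (E y) (E x - E y)
    rwa [add_sub_cancel] at this
  have e1 : T' ^ (-(1 / 100) : ℝ) ≤ T ^ (-(1 / 4800) : ℝ) := by
    rw [hT', ← Real.rpow_mul hT0.le]
    exact Real.rpow_le_rpow_of_exponent_le hT1' (by norm_num)
  have e2 : T' ^ (-(1 / 240) : ℝ) = T ^ (-(1 / 4800) : ℝ) := by
    rw [hT', ← Real.rpow_mul hT0.le]
    norm_num
  have e3 : (1 + C) * T ^ (-(1 / 4800) : ℝ) ≤ T ^ (-(1 / 5000) : ℝ) := by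
    have h3 : 1 + C ≤ T ^ (1 / 120000 : ℝ) := by
      have h4 : (Real.log X ^ K) ^ (1 / 120000 : ℝ) ≤ T ^ (1 / 120000 : ℝ) :=
        Real.rpow_le_rpow (by positivity) hT1 (by norm_num)
      rw [← Real.rpow_mul (by linarith)] at h4
      have h5 : Real.log X ^ (1 : ℝ) ≤ Real.log X ^ (K * (1 / 120000)) :=
        Real.rpow_le_rpow_of_exponent_le hℓ1 (by linarith)
      rw [Real.rpow_one] at h5
      linarith
    calc (1 + C) * T ^ (-(1 / 4800) : ℝ) ≤ T ^ (1 / 120000 : ℝ) * T ^ (-(1 / 4800) : ℝ) :=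
          mul_le_mul_of_nonneg_right h3 (by positivity)
      _ = T ^ (-(1 / 5000) : ℝ) := by
          rw [← Real.rpow_add hT0]
          norm_num
  have hx0 : 0 < x := by linarith
  have hyx : y ^ (1 / 6 : ℝ) ≤ x ^ (1 / 6 : ℝ) := Real.rpow_le_rpow hy0.le hx1 (by norm_num)
  calc |E x| ≤ |E y| + |E x - E y| := h2
    _ ≤ y ^ (1 / 6 : ℝ) * T' ^ (-(1 / 100) : ℝ) +
        C * y ^ (1 / 6 : ℝ) * T' ^ (-(1 / 240) : ℝ) := add_le_add hy3 h1
    _ ≤ y ^ (1 / 6 : ℝ) * T ^ (-(1 / 4800) : ℝ) +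
        C * y ^ (1 / 6 : ℝ) * T ^ (-(1 / 4800) : ℝ) := by
        rw [e2]
        have := mul_le_mul_of_nonneg_left e1 (show 0 ≤ y ^ (1 / 6 : ℝ) by positivity)
        linarith
    _ = y ^ (1 / 6 : ℝ) * ((1 + C) * T ^ (-(1 / 4800) : ℝ)) := by ring
    _ ≤ x ^ (1 / 6 : ℝ) * T ^ (-(1 / 5000) : ℝ) := by
        apply mul_le_mul hyx e3 (by positivity) (by positivity)

end Pool.PWU
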