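import Pool.Agent.PWE.Loca
import Pool.Agent.PWE.Ident

/-!
# PWU OSC: E(x) = O(x^(1/6)) and a uniform bound for the oscillation of E

As in PWE/Loca (same tools: dtwo, mob, D_mono, D_zero, cnt, ident), but uniform. Write
D(u) = α √u + β u^(1/3) + R(u), |R(u)| <= C u^(3/20) for u >= 1 (dtwo), D(u) = 0 for u < 1,
Q(x) = sum_m μ(m) D(x/m^6) (mob), A' = α sum μ(m)/m^3, B' = β sum μ(m)/m^2 (= cA, cB by ident),
F(x) = Q(x) - A' √x - B' x^(1/3) = E(x).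
With z = x^(1/6), T = t^240: M = floor(z/t^10), all errors are O(z/t).
-/

set_option autoImplicit false

open Complex Finset Filter Topology MeasureTheory

namespace Pool.PWU

open Pool.PWE

/-- tails of absolutely convergent sums -/
private theorem lo_tail {s : ℕ → ℝ} (hs : Summable s) (h0 : s 0 = 0) {M : ℕ} {c : ℝ}
    (hc : 0 ≤ c) (h : ∀ m : ℕ, M ≤ m → |s (m + 1)| ≤ c * (1 / (m : ℝ) - 1 / ((m : ℝ) + 1))) :
    |∑' m, s m - ∑ m ∈ Icc 1 M, s m| ≤ c / M := by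
  have hpart : ∀ N : ℕ, M ≤ N → |∑ m ∈ Icc 1 N, s m - ∑ m ∈ Icc 1 M, s m| ≤
      c * (1 / (M : ℝ) - 1 / (N : ℝ)) := by
    intro N hN
    induction N, hN using Nat.le_induction with
    | base => simp
    | succ N hN ih =>
      rw [Finset.sum_Icc_succ_top (by omega)]
      have h1 := h N hN
      have h2 : |∑ m ∈ Icc 1 N, s m + s (N + 1) - ∑ m ∈ Icc 1 M, s m| ≤
          |∑ m ∈ Icc 1 N, s m - ∑ m ∈ Icc 1 M, s m| + |s (N + 1)| := by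
        have e : ∑ m ∈ Icc 1 N, s m + s (N + 1) - ∑ m ∈ Icc 1 M, s m =
            (∑ m ∈ Icc 1 N, s m - ∑ m ∈ Icc 1 M, s m) + s (N + 1) := by ring
        rw [e]
        exact abs_add_le _ _
      push_cast
      linarith
  have hr : ∀ N : ℕ, ∑ m ∈ Finset.range (N + 1), s m = ∑ m ∈ Icc 1 N, s m := by
    intro N
    induction N with
    | zero => simp [h0]
    | succ N ih => rw [Finset.sum_range_succ, ih, Finset.sum_Icc_succ_top (by omega)]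
  have ht : Tendsto (fun N : ℕ => |∑ m ∈ Icc 1 N, s m - ∑ m ∈ Icc 1 M, s m|) atTop
      (𝓝 |∑' m, s m - ∑ m ∈ Icc 1 M, s m|) := by
    have h1 := (hs.hasSum.tendsto_sum_nat.comp (tendsto_add_atTop_nat 1))
    have h2 : Tendsto (fun N : ℕ => ∑ m ∈ Icc 1 N, s m) atTop (𝓝 (∑' m, s m)) := by
      refine h1.congr fun N => ?_
      exact hr N
    exact (h2.sub_const _).abs
  refine le_of_tendsto ht ?_
  filter_upwards [eventually_ge_atTop M] with N hN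
  refine (hpart N hN).trans ?_
  have h3 : (0 : ℝ) ≤ 1 / (N : ℝ) := by positivity
  calc c * (1 / (M : ℝ) - 1 / (N : ℝ)) ≤ c * (1 / (M : ℝ)) := by
        apply mul_le_mul_of_nonneg_left _ hc
        linarith
    _ = c / M := by ring

private theorem lo_mu (m : ℕ) : |(ArithmeticFunction.moebius m : ℝ)| ≤ 1 := by
  have h := ArithmeticFunction.abs_moebius_le_one (n := m)
  exact_mod_cast h

private theorem lo_sum3 : Summable fun m : ℕ => (ArithmeticFunction.moebius m : ℝ) / (m : ℝ) ^ 3 := by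
  refine Summable.of_norm_bounded (g := fun m : ℕ => 1 / (m : ℝ) ^ 3)
    (Real.summable_one_div_nat_pow.2 (by norm_num)) fun m => ?_
  rw [norm_div, Real.norm_eq_abs, Real.norm_eq_abs, abs_of_nonneg (by positivity : (0 : ℝ) ≤ (m : ℝ) ^ 3)]
  exact div_le_div_of_nonneg_right (lo_mu m) (by positivity)

private theorem lo_sum2 : Summable fun m : ℕ => (ArithmeticFunction.moebius m : ℝ) / (m : ℝ) ^ 2 := by
  refine Summable.of_norm_bounded (g := fun m : ℕ => 1 / (m : ℝ) ^ 2)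
    (Real.summable_one_div_nat_pow.2 (by norm_num)) fun m => ?_
  rw [norm_div, Real.norm_eq_abs, Real.norm_eq_abs, abs_of_nonneg (by positivity : (0 : ℝ) ≤ (m : ℝ) ^ 2)]
  exact div_le_div_of_nonneg_right (lo_mu m) (by positivity)

private theorem lo_R2 {M : ℕ} (hM : 1 ≤ M) :
    |∑' m : ℕ, (ArithmeticFunction.moebius m : ℝ) / (m : ℝ) ^ 2 -
      ∑ m ∈ Icc 1 M, (ArithmeticFunction.moebius m : ℝ) / (m : ℝ) ^ 2| ≤ 1 / M := by
  refine lo_tail lo_sum2 (by simp) zero_le_one fun m hm => ?_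
  have hm0 : (0 : ℝ) < m := by exact_mod_cast (by omega : 0 < m)
  rw [abs_div, abs_of_nonneg (by positivity : (0 : ℝ) ≤ ((m + 1 : ℕ) : ℝ) ^ 2), one_mul]
  have h1 : |(ArithmeticFunction.moebius (m + 1) : ℝ)| / ((m + 1 : ℕ) : ℝ) ^ 2 ≤
      1 / ((m + 1 : ℕ) : ℝ) ^ 2 := div_le_div_of_nonneg_right (lo_mu _) (by positivity)
  refine h1.trans ?_
  push_cast
  rw [div_sub_div _ _ hm0.ne' (by positivity), div_le_div_iff₀ (by positivity) (by positivity)]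
  nlinarith

private theorem lo_R3 {M : ℕ} (hM : 1 ≤ M) :
    |∑' m : ℕ, (ArithmeticFunction.moebius m : ℝ) / (m : ℝ) ^ 3 -
      ∑ m ∈ Icc 1 M, (ArithmeticFunction.moebius m : ℝ) / (m : ℝ) ^ 3| ≤ 1 / (M : ℝ) ^ 2 := by
  have hM0 : (0 : ℝ) < M := by exact_mod_cast (by omega : 0 < M)
  have h := lo_tail (M := M) (c := 1 / (M : ℝ)) lo_sum3 (by simp) (by positivity) fun m hm => ?_
  · refine h.trans (le_of_eq ?_)
    field_simp
  have hm0 : (0 : ℝ) < m := by exact_mod_cast (by omega : 0 < m)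
  have hMm : (M : ℝ) ≤ m := by exact_mod_cast hm
  rw [abs_div, abs_of_nonneg (by positivity : (0 : ℝ) ≤ ((m + 1 : ℕ) : ℝ) ^ 3)]
  have h1 : |(ArithmeticFunction.moebius (m + 1) : ℝ)| / ((m + 1 : ℕ) : ℝ) ^ 3 ≤
      1 / ((m + 1 : ℕ) : ℝ) ^ 3 := div_le_div_of_nonneg_right (lo_mu _) (by positivity)
  refine h1.trans ?_
  push_cast
  have e : 1 / (m : ℝ) - 1 / ((m : ℝ) + 1) = 1 / ((m : ℝ) * ((m : ℝ) + 1)) := by
    field_simp
    ring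
  rw [e, div_mul_div_comm, one_mul, div_le_div_iff₀ (by positivity) (by positivity)]
  nlinarith [mul_pos hm0 hm0, mul_pos hM0 hm0, mul_le_mul_of_nonneg_right hMm hm0.le,
    mul_le_mul_of_nonneg_right hMm (mul_pos hm0 hm0).le]

/-- the sum of `m ^ (-9/10)` -/
private theorem lo_910 (M : ℕ) : ∑ m ∈ Icc 1 M, (m : ℝ) ^ (-(9 / 10) : ℝ) ≤
    10 * (M : ℝ) ^ (1 / 10 : ℝ) := by
  induction M with
  | zero => simp
  | succ M ih =>
    rw [Finset.sum_Icc_succ_top (by omega)]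
    have hp : (0 : ℝ) < ((M + 1 : ℕ) : ℝ) := by positivity
    have h1 : (1 + (-(1 / ((M + 1 : ℕ) : ℝ)))) ^ (1 / 10 : ℝ) ≤ 1 + (1 / 10) * (-(1 / ((M + 1 : ℕ) : ℝ))) := by
      refine rpow_one_add_le_one_add_mul_self ?_ (by norm_num) (by norm_num)
      have h2 : 1 / ((M + 1 : ℕ) : ℝ) ≤ 1 := by
        rw [div_le_one hp]
        push_cast
        linarith [(Nat.cast_nonneg M : (0 : ℝ) ≤ (M : ℝ))]
      linarith
    have h2 : (1 + (-(1 / ((M + 1 : ℕ) : ℝ)))) = (M : ℝ) / ((M + 1 : ℕ) : ℝ) := by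
      field_simp
      push_cast
      ring
    rw [h2, Real.div_rpow (Nat.cast_nonneg M) hp.le, div_le_iff₀ (Real.rpow_pos_of_pos hp _)] at h1
    have h3 : ((M + 1 : ℕ) : ℝ) ^ (1 / 10 : ℝ) = ((M + 1 : ℕ) : ℝ) ^ (-(9 / 10) : ℝ) * ((M + 1 : ℕ) : ℝ) := by
      rw [← Real.rpow_add_one hp.ne']
      norm_num
    have h4 : (1 + 1 / 10 * -(1 / ((M + 1 : ℕ) : ℝ))) * ((M + 1 : ℕ) : ℝ) ^ (1 / 10 : ℝ) =
        ((M + 1 : ℕ) : ℝ) ^ (1 / 10 : ℝ) - (1 / 10) * ((M + 1 : ℕ) : ℝ) ^ (-(9 / 10) : ℝ) := by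
      have h5 : (1 / ((M + 1 : ℕ) : ℝ)) * ((M + 1 : ℕ) : ℝ) ^ (1 / 10 : ℝ) =
          ((M + 1 : ℕ) : ℝ) ^ (-(9 / 10) : ℝ) := by
        rw [h3]
        field_simp
      linear_combination (-(1 / 10)) * h5
    rw [h4] at h1
    linarith

/-- increments of a concave power -/
private theorem lo_inc {x h p : ℝ} (hx : 1 ≤ x) (hh : 0 ≤ h) (hp : 0 ≤ p) (hp1 : p ≤ 1) :
    0 ≤ (x + h) ^ p - x ^ p ∧ (x + h) ^ p - x ^ p ≤ h * x ^ (p - 1) := by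
  have hx0 : 0 < x := by linarith
  refine ⟨sub_nonneg.2 (Real.rpow_le_rpow hx0.le (by linarith) hp), ?_⟩
  have h1 : (1 + h / x) ^ p ≤ 1 + p * (h / x) :=
    rpow_one_add_le_one_add_mul_self (by linarith [div_nonneg hh hx0.le]) hp hp1
  have h2 : x + h = x * (1 + h / x) := by field_simp
  rw [h2, Real.mul_rpow hx0.le (by positivity)]
  have h3 : x ^ (p - 1) = x ^ p / x := by rw [Real.rpow_sub_one hx0.ne']
  have h4 : 0 < x ^ p := Real.rpow_pos_of_pos hx0 p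
  have h5 : 1 + p * (h / x) ≤ 1 + h / x := by
    have := mul_le_mul_of_nonneg_right hp1 (div_nonneg hh hx0.le)
    linarith
  have h6 := mul_le_mul_of_nonneg_left (h1.trans h5) h4.le
  rw [h3]
  have h7 : x ^ p * (1 + h / x) = x ^ p + h * (x ^ p / x) := by field_simp
  linarith

/-- the sum over `m ≤ M` -/
private theorem lo_part {α β C : ℝ} (hC : 0 < C) (hD : ∀ u : ℝ, 1 ≤ u →
    |(D u : ℝ) - α * √u - β * u ^ (1 / 3 : ℝ)| ≤ C * u ^ (3 / 20 : ℝ)) {x : ℝ} (hx : 1 ≤ x)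
    {M : ℕ} (hM : (M : ℝ) ^ 6 ≤ x) :
    |∑ m ∈ Icc 1 M, (ArithmeticFunction.moebius m : ℝ) * (D (x / (m : ℝ) ^ 6) : ℝ) -
      α * √x * (∑ m ∈ Icc 1 M, (ArithmeticFunction.moebius m : ℝ) / (m : ℝ) ^ 3) -
      β * x ^ (1 / 3 : ℝ) * (∑ m ∈ Icc 1 M, (ArithmeticFunction.moebius m : ℝ) / (m : ℝ) ^ 2)| ≤
    10 * C * x ^ (3 / 20 : ℝ) * (M : ℝ) ^ (1 / 10 : ℝ) := by
  have hx0 : 0 ≤ x := by linarith
  have e : ∑ m ∈ Icc 1 M, (ArithmeticFunction.moebius m : ℝ) * (D (x / (m : ℝ) ^ 6) : ℝ) -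
      α * √x * (∑ m ∈ Icc 1 M, (ArithmeticFunction.moebius m : ℝ) / (m : ℝ) ^ 3) -
      β * x ^ (1 / 3 : ℝ) * (∑ m ∈ Icc 1 M, (ArithmeticFunction.moebius m : ℝ) / (m : ℝ) ^ 2) =
      ∑ m ∈ Icc 1 M, (ArithmeticFunction.moebius m : ℝ) * ((D (x / (m : ℝ) ^ 6) : ℝ) -
        α * √(x / (m : ℝ) ^ 6) - β * (x / (m : ℝ) ^ 6) ^ (1 / 3 : ℝ)) := by
    rw [Finset.mul_sum, Finset.mul_sum, ← Finset.sum_sub_distrib, ← Finset.sum_sub_distrib]
    refine Finset.sum_congr rfl fun m hm => ?_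
    have hm1 : 1 ≤ m := (Finset.mem_Icc.1 hm).1
    have hm0 : (0 : ℝ) < m := by exact_mod_cast (by omega : 0 < m)
    have e1 : √(x / (m : ℝ) ^ 6) = √x / (m : ℝ) ^ 3 := by
      rw [Real.sqrt_div hx0, show (m : ℝ) ^ 6 = ((m : ℝ) ^ 3) ^ 2 by ring,
        Real.sqrt_sq (by positivity)]
    have e2 : (x / (m : ℝ) ^ 6) ^ (1 / 3 : ℝ) = x ^ (1 / 3 : ℝ) / (m : ℝ) ^ 2 := by
      rw [Real.div_rpow hx0 (by positivity), ← Real.rpow_natCast (m : ℝ) 6, ← Real.rpow_mul hm0.le,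
        ← Real.rpow_natCast (m : ℝ) 2]
      norm_num
    rw [e1, e2]
    ring
  rw [e]
  refine (Finset.abs_sum_le_sum_abs _ _).trans ?_
  have h1 : ∀ m ∈ Icc 1 M, |(ArithmeticFunction.moebius m : ℝ) * ((D (x / (m : ℝ) ^ 6) : ℝ) -
        α * √(x / (m : ℝ) ^ 6) - β * (x / (m : ℝ) ^ 6) ^ (1 / 3 : ℝ))| ≤
      C * x ^ (3 / 20 : ℝ) * (m : ℝ) ^ (-(9 / 10) : ℝ) := by
    intro m hm
    have hm1 : 1 ≤ m := (Finset.mem_Icc.1 hm).1
    have hm2 : m ≤ M := (Finset.mem_Icc.1 hm).2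
    have hm0 : (0 : ℝ) < m := by exact_mod_cast (by omega : 0 < m)
    have hmx : (m : ℝ) ^ 6 ≤ x :=
      (pow_le_pow_left₀ hm0.le (by exact_mod_cast hm2) 6).trans hM
    have h2 := hD (x / (m : ℝ) ^ 6) ((one_le_div (by positivity)).2 hmx)
    have e3 : (x / (m : ℝ) ^ 6) ^ (3 / 20 : ℝ) = x ^ (3 / 20 : ℝ) * (m : ℝ) ^ (-(9 / 10) : ℝ) := by
      rw [Real.div_rpow hx0 (by positivity), ← Real.rpow_natCast (m : ℝ) 6, ← Real.rpow_mul hm0.le,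
        div_eq_mul_inv, ← Real.rpow_neg hm0.le]
      norm_num
    rw [e3] at h2
    rw [abs_mul]
    calc |(ArithmeticFunction.moebius m : ℝ)| * |(D (x / (m : ℝ) ^ 6) : ℝ) -
        α * √(x / (m : ℝ) ^ 6) - β * (x / (m : ℝ) ^ 6) ^ (1 / 3 : ℝ)| ≤
        1 * (C * (x ^ (3 / 20 : ℝ) * (m : ℝ) ^ (-(9 / 10) : ℝ))) :=
          mul_le_mul (lo_mu m) h2 (abs_nonneg _) zero_le_one
      _ = C * x ^ (3 / 20 : ℝ) * (m : ℝ) ^ (-(9 / 10) : ℝ) := by ring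
  refine (Finset.sum_le_sum h1).trans ?_
  rw [← Finset.mul_sum]
  have h3 := mul_le_mul_of_nonneg_left (lo_910 M)
    (by positivity : (0 : ℝ) ≤ C * x ^ (3 / 20 : ℝ))
  refine h3.trans (le_of_eq ?_)
  ring

/-- `Q` as a sum over `m ≤ K` -/
private theorem lo_Q {x : ℝ} (hx : 0 ≤ x) {K : ℕ} (hK : ∀ m : ℕ, K < m → x < (m : ℝ) ^ 6) :
    (Q x : ℝ) = ∑ m ∈ Icc 1 K, (ArithmeticFunction.moebius m : ℝ) * (D (x / (m : ℝ) ^ 6) : ℝ) := by
  rw [mob x hx]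
  have hz : ∀ m : ℕ, x < (m : ℝ) ^ 6 → (ArithmeticFunction.moebius m : ℝ) * (D (x / (m : ℝ) ^ 6) : ℝ) = 0 := by
    intro m hm
    have hm0 : (0 : ℝ) < (m : ℝ) ^ 6 := lt_of_le_of_lt hx hm
    rw [D_zero ((div_lt_one hm0).2 hm), Nat.cast_zero, mul_zero]
  have hfl : ∀ m : ℕ, ⌊x⌋₊ < m → x < (m : ℝ) ^ 6 := by
    intro m hm
    have h1 : x < (m : ℝ) := Nat.lt_of_floor_lt hm
    have h2 : 1 ≤ m := by omega
    have h3 : (1 : ℝ) ≤ m := by exact_mod_cast h2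
    exact h1.trans_le (le_self_pow₀ h3 (by norm_num))
  have h1 : ∑ m ∈ Icc 1 ⌊x⌋₊, (ArithmeticFunction.moebius m : ℝ) * (D (x / (m : ℝ) ^ 6) : ℝ) =
      ∑ m ∈ Icc 1 (max K ⌊x⌋₊), (ArithmeticFunction.moebius m : ℝ) * (D (x / (m : ℝ) ^ 6) : ℝ) := by
    refine Finset.sum_subset (Finset.Icc_subset_Icc_right (le_max_right _ _)) fun m hm hm' => ?_
    refine hz m (hfl m ?_)
    rw [Finset.mem_Icc] at hm hm'
    omega
  have h2 : ∑ m ∈ Icc 1 K, (ArithmeticFunction.moebius m : ℝ) * (D (x / (m : ℝ) ^ 6) : ℝ) =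
      ∑ m ∈ Icc 1 (max K ⌊x⌋₊), (ArithmeticFunction.moebius m : ℝ) * (D (x / (m : ℝ) ^ 6) : ℝ) := by
    refine Finset.sum_subset (Finset.Icc_subset_Icc_right (le_max_left _ _)) fun m hm hm' => ?_
    refine hz m (hK m ?_)
    rw [Finset.mem_Icc] at hm hm'
    omega
  rw [h1, h2]

private theorem os_glob {α β C : ℝ} (hC : 0 < C) (hD : ∀ u : ℝ, 1 ≤ u →
    |(D u : ℝ) - α * √u - β * u ^ (1 / 3 : ℝ)| ≤ C * u ^ (3 / 20 : ℝ)) {x : ℝ} (hx : 1 ≤ x) :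
    |(Q x : ℝ) - α * (∑' m : ℕ, (ArithmeticFunction.moebius m : ℝ) / (m : ℝ) ^ 3) * √x -
      β * (∑' m : ℕ, (ArithmeticFunction.moebius m : ℝ) / (m : ℝ) ^ 2) * x ^ (1 / 3 : ℝ)| ≤
      (10 * C + 4 * |α| + 2 * |β|) * x ^ (1 / 6 : ℝ) := by
  have hx0 : 0 < x := by linarith
  set T : ℝ := x ^ (1 / 6 : ℝ) with hT
  have hT1 : 1 ≤ T := Real.one_le_rpow hx (by norm_num)
  have hT0 : 0 < T := by linarith
  set M : ℕ := ⌊T⌋₊ with hM
  have hM1 : 1 ≤ M := by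
    rw [hM]
    exact (Nat.one_le_floor_iff _).2 hT1
  have hMT : (M : ℝ) ≤ T := Nat.floor_le hT0.le
  have hMT2 : T < (M : ℝ) + 1 := Nat.lt_floor_add_one T
  have hM1' : (1 : ℝ) ≤ M := by exact_mod_cast hM1
  have hM0 : (0 : ℝ) < M := by linarith
  have hT6 : T ^ 6 = x := by
    rw [hT, ← Real.rpow_natCast, ← Real.rpow_mul hx0.le]
    norm_num
  have hM6 : (M : ℝ) ^ 6 ≤ x := by
    rw [← hT6]
    exact pow_le_pow_left₀ hM0.le hMT 6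
  have hK : ∀ m : ℕ, M < m → x < (m : ℝ) ^ 6 := by
    intro m hm
    rw [← hT6]
    have h1 : (M : ℝ) + 1 ≤ m := by exact_mod_cast hm
    exact pow_lt_pow_left₀ (by linarith) hT0.le (by norm_num)
  rw [lo_Q hx0.le hK]
  have h1 := lo_part hC hD hx hM6
  have h3 := lo_R3 hM1
  have h2 := lo_R2 hM1
  set S3 := ∑' m : ℕ, (ArithmeticFunction.moebius m : ℝ) / (m : ℝ) ^ 3
  set S2 := ∑' m : ℕ, (ArithmeticFunction.moebius m : ℝ) / (m : ℝ) ^ 2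
  set s3 := ∑ m ∈ Icc 1 M, (ArithmeticFunction.moebius m : ℝ) / (m : ℝ) ^ 3
  set s2 := ∑ m ∈ Icc 1 M, (ArithmeticFunction.moebius m : ℝ) / (m : ℝ) ^ 2
  set q := ∑ m ∈ Icc 1 M, (ArithmeticFunction.moebius m : ℝ) * (D (x / (m : ℝ) ^ 6) : ℝ)
  have e : q - α * S3 * √x - β * S2 * x ^ (1 / 3 : ℝ) =
      (q - α * √x * s3 - β * x ^ (1 / 3 : ℝ) * s2) + (-(α * √x * (S3 - s3))) +
        (-(β * x ^ (1 / 3 : ℝ) * (S2 - s2))) := by ring
  rw [e]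
  refine (abs_add_three _ _ _).trans ?_
  have c2 : |-(α * √x * (S3 - s3))| = |α| * √x * |S3 - s3| := by
    rw [abs_neg, abs_mul, abs_mul, abs_of_nonneg (Real.sqrt_nonneg x)]
  have c3 : |-(β * x ^ (1 / 3 : ℝ) * (S2 - s2))| = |β| * x ^ (1 / 3 : ℝ) * |S2 - s2| := by
    rw [abs_neg, abs_mul, abs_mul, abs_of_nonneg (by positivity : (0 : ℝ) ≤ x ^ (1 / 3 : ℝ))]
  rw [c2, c3]
  have hsq : √x = T ^ 3 := by
    rw [Real.sqrt_eq_rpow, hT, ← Real.rpow_natCast, ← Real.rpow_mul hx0.le]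
    norm_num
  have hcb : x ^ (1 / 3 : ℝ) = T ^ 2 := by
    rw [hT, ← Real.rpow_natCast, ← Real.rpow_mul hx0.le]
    norm_num
  have b1 : 10 * C * x ^ (3 / 20 : ℝ) * (M : ℝ) ^ (1 / 10 : ℝ) ≤ 10 * C * T := by
    have h4 : (M : ℝ) ^ (1 / 10 : ℝ) ≤ x ^ (1 / 60 : ℝ) := by
      have h5 : x ^ (1 / 60 : ℝ) = T ^ (1 / 10 : ℝ) := by
        rw [hT, ← Real.rpow_mul hx0.le]
        norm_num
      rw [h5]
      exact Real.rpow_le_rpow hM0.le hMT (by norm_num)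
    have h6 : x ^ (3 / 20 : ℝ) * x ^ (1 / 60 : ℝ) = T := by
      rw [← Real.rpow_add hx0, hT]
      norm_num
    calc 10 * C * x ^ (3 / 20 : ℝ) * (M : ℝ) ^ (1 / 10 : ℝ) ≤
        10 * C * x ^ (3 / 20 : ℝ) * x ^ (1 / 60 : ℝ) :=
          mul_le_mul_of_nonneg_left h4 (by positivity)
      _ = 10 * C * T := by rw [mul_assoc, h6]
  have h2M : T ≤ 2 * M := by linarith
  have b2 : |α| * √x * |S3 - s3| ≤ 4 * |α| * T := by
    have h4 : √x * |S3 - s3| ≤ 4 * T := by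
      rw [hsq]
      calc T ^ 3 * |S3 - s3| ≤ T ^ 3 * (1 / (M : ℝ) ^ 2) := mul_le_mul_of_nonneg_left h3 (by positivity)
        _ ≤ 4 * T := by
          rw [mul_one_div, div_le_iff₀ (by positivity)]
          nlinarith [mul_self_le_mul_self hT0.le h2M]
    calc |α| * √x * |S3 - s3| = |α| * (√x * |S3 - s3|) := by ring
      _ ≤ |α| * (4 * T) := mul_le_mul_of_nonneg_left h4 (abs_nonneg _)
      _ = 4 * |α| * T := by ring
  have b3 : |β| * x ^ (1 / 3 : ℝ) * |S2 - s2| ≤ 2 * |β| * T := by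
    have h4 : x ^ (1 / 3 : ℝ) * |S2 - s2| ≤ 2 * T := by
      rw [hcb]
      calc T ^ 2 * |S2 - s2| ≤ T ^ 2 * (1 / (M : ℝ)) := mul_le_mul_of_nonneg_left h2 (by positivity)
        _ ≤ 2 * T := by
          rw [mul_one_div, div_le_iff₀ (by positivity)]
          nlinarith
    calc |β| * x ^ (1 / 3 : ℝ) * |S2 - s2| = |β| * (x ^ (1 / 3 : ℝ) * |S2 - s2|) := by ring
      _ ≤ |β| * (2 * T) := mul_le_mul_of_nonneg_left h4 (abs_nonneg _)
      _ = 2 * |β| * T := by ring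
  nlinarith [h1, b1, b2, b3]

private theorem os_loc {α β C : ℝ} (hC : 0 < C) (hD : ∀ u : ℝ, 1 ≤ u →
    |(D u : ℝ) - α * √u - β * u ^ (1 / 3 : ℝ)| ≤ C * u ^ (3 / 20 : ℝ)) {x h z t : ℝ} (hx : 1 ≤ x)
    (hh : 0 ≤ h) (hz : z = x ^ (1 / 6 : ℝ)) (ht : 1 ≤ t) (htz : t ^ 240 ≤ z)
    (hhx : h ≤ z ^ 6 / t ^ 240) :
    |((Q (x + h) : ℝ) - α * (∑' m : ℕ, (ArithmeticFunction.moebius m : ℝ) / (m : ℝ) ^ 3) * √(x + h) -
      β * (∑' m : ℕ, (ArithmeticFunction.moebius m : ℝ) / (m : ℝ) ^ 2) * (x + h) ^ (1 / 3 : ℝ)) -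
      ((Q x : ℝ) - α * (∑' m : ℕ, (ArithmeticFunction.moebius m : ℝ) / (m : ℝ) ^ 3) * √x -
      β * (∑' m : ℕ, (ArithmeticFunction.moebius m : ℝ) / (m : ℝ) ^ 2) * x ^ (1 / 3 : ℝ))| ≤
      (30 * C + 4 * |α| + 2 * |β| + 32768) * (z / t) := by
  have hx0 : 0 < x := by linarith
  have hz1 : 1 ≤ z := by rw [hz]; exact Real.one_le_rpow hx (by norm_num)
  have hz0 : 0 < z := by linarith
  have ht0 : 0 < t := by linarith
  have hz6 : z ^ 6 = x := by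
    rw [hz, ← Real.rpow_natCast, ← Real.rpow_mul hx0.le]
    norm_num
  have htp : ∀ a b : ℕ, a ≤ b → t ^ a ≤ t ^ b := fun a b hab => pow_le_pow_right₀ ht hab
  set X := x + h with hXdef
  have hX1 : 1 ≤ X := by linarith
  have hX0 : 0 < X := by linarith
  set T : ℝ := z / t ^ 10 with hT
  have hT1 : 1 ≤ T := by
    rw [hT, one_le_div (by positivity)]
    exact (htp 10 240 (by norm_num)).trans htz
  have hT0 : 0 < T := by linarith
  set M : ℕ := ⌊T⌋₊ with hM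
  have hM1 : 1 ≤ M := by
    rw [hM]
    exact (Nat.one_le_floor_iff _).2 hT1
  have hMT : (M : ℝ) ≤ T := Nat.floor_le hT0.le
  have hMT2 : T < (M : ℝ) + 1 := Nat.lt_floor_add_one T
  have hM1' : (1 : ℝ) ≤ M := by exact_mod_cast hM1
  have hM0 : (0 : ℝ) < M := by linarith
  have h2M : T ≤ 2 * M := by linarith
  have hT6 : t ^ 60 * T ^ 6 = x := by
    rw [← hz6, hT]
    field_simp
  have hTz : T ≤ z := div_le_self hz0.le (one_le_pow₀ ht)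
  have hT6x : T ^ 6 ≤ x := by
    rw [← hz6]
    exact pow_le_pow_left₀ hT0.le hTz 6
  have hM6 : (M : ℝ) ^ 6 ≤ x := (pow_le_pow_left₀ hM0.le hMT 6).trans hT6x
  have hhx' : h ≤ x := by
    refine hhx.trans ?_
    rw [← hz6]
    exact div_le_self (by positivity) (one_le_pow₀ ht)
  have hMX : (M : ℝ) ≤ X := by
    have h1 : (M : ℝ) ≤ (M : ℝ) ^ 6 := le_self_pow₀ hM1' (by norm_num)
    linarith
  have hML : M ≤ ⌊X⌋₊ := Nat.le_floor hMX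
  have hfl : ∀ m : ℕ, ⌊X⌋₊ < m → X < (m : ℝ) ^ 6 := by
    intro m hm
    have h1 : X < (m : ℝ) := Nat.lt_of_floor_lt hm
    have h2 : 1 ≤ m := by omega
    have h3 : (1 : ℝ) ≤ m := by exact_mod_cast h2
    exact h1.trans_le (le_self_pow₀ h3 (by norm_num))
  have hQX := lo_Q hX0.le hfl
  have hQx := lo_Q hx0.le fun m hm => lt_of_le_of_lt (by linarith : x ≤ X) (hfl m hm)
  have hsub : Icc 1 M ⊆ Icc 1 ⌊X⌋₊ := Finset.Icc_subset_Icc_right hML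
  rw [← Finset.sum_sdiff hsub] at hQX hQx
  have h1 := lo_part hC hD hx hM6
  have h1' := lo_part hC hD hX1 (M := M) (by linarith)
  have h3 := lo_R3 hM1
  have h2 := lo_R2 hM1
  have hcnt : |∑ m ∈ Icc 1 ⌊X⌋₊ \ Icc 1 M, (ArithmeticFunction.moebius m : ℝ) * (D (X / (m : ℝ) ^ 6) : ℝ) -
      ∑ m ∈ Icc 1 ⌊X⌋₊ \ Icc 1 M, (ArithmeticFunction.moebius m : ℝ) * (D (x / (m : ℝ) ^ 6) : ℝ)| ≤
      (128 * t ^ 60) ^ 2 * (1 + h * x ^ (-(5 / 6) : ℝ)) := by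
    rw [← Finset.sum_sub_distrib]
    refine (Finset.abs_sum_le_sum_abs _ _).trans ?_
    have hP : X / (M : ℝ) ^ 6 ≤ 128 * t ^ 60 := by
      rw [div_le_iff₀ (by positivity)]
      have h4 : T ^ 6 ≤ 64 * (M : ℝ) ^ 6 := by
        calc T ^ 6 ≤ (2 * (M : ℝ)) ^ 6 := pow_le_pow_left₀ hT0.le h2M 6
          _ = 64 * (M : ℝ) ^ 6 := by ring
      have h6 : t ^ 60 * T ^ 6 ≤ t ^ 60 * (64 * (M : ℝ) ^ 6) :=
        mul_le_mul_of_nonneg_left h4 (by positivity)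
      rw [hT6] at h6
      linarith
    refine le_trans (Finset.sum_le_sum fun m hm => ?_)
      (cnt hx hh hM1 hP (Icc 1 ⌊X⌋₊ \ Icc 1 M) fun m hm => ?_)
    · have h7 : (D (x / (m : ℝ) ^ 6) : ℝ) ≤ (D (X / (m : ℝ) ^ 6) : ℝ) := by
        exact_mod_cast D_mono (div_le_div_of_nonneg_right (by linarith) (by positivity))
      rw [← mul_sub, abs_mul, abs_of_nonneg (sub_nonneg.2 h7)]
      calc |(ArithmeticFunction.moebius m : ℝ)| * ((D (X / (m : ℝ) ^ 6) : ℝ) - (D (x / (m : ℝ) ^ 6) : ℝ)) ≤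
          1 * ((D (X / (m : ℝ) ^ 6) : ℝ) - (D (x / (m : ℝ) ^ 6) : ℝ)) :=
            mul_le_mul_of_nonneg_right (lo_mu m) (sub_nonneg.2 h7)
        _ = _ := one_mul _
    · rw [Finset.mem_sdiff, Finset.mem_Icc, Finset.mem_Icc] at hm
      omega
  rw [hQX, hQx]
  set S3 := ∑' m : ℕ, (ArithmeticFunction.moebius m : ℝ) / (m : ℝ) ^ 3
  set S2 := ∑' m : ℕ, (ArithmeticFunction.moebius m : ℝ) / (m : ℝ) ^ 2
  set s3 := ∑ m ∈ Icc 1 M, (ArithmeticFunction.moebius m : ℝ) / (m : ℝ) ^ 3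
  set s2 := ∑ m ∈ Icc 1 M, (ArithmeticFunction.moebius m : ℝ) / (m : ℝ) ^ 2
  set q := ∑ m ∈ Icc 1 M, (ArithmeticFunction.moebius m : ℝ) * (D (x / (m : ℝ) ^ 6) : ℝ)
  set qX := ∑ m ∈ Icc 1 M, (ArithmeticFunction.moebius m : ℝ) * (D (X / (m : ℝ) ^ 6) : ℝ)
  set rX := ∑ m ∈ Icc 1 ⌊X⌋₊ \ Icc 1 M, (ArithmeticFunction.moebius m : ℝ) * (D (X / (m : ℝ) ^ 6) : ℝ)
  set r := ∑ m ∈ Icc 1 ⌊X⌋₊ \ Icc 1 M, (ArithmeticFunction.moebius m : ℝ) * (D (x / (m : ℝ) ^ 6) : ℝ)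
  -- the five parts
  have i2 := lo_inc hx hh (by norm_num : (0 : ℝ) ≤ 1 / 2) (by norm_num)
  have i3 := lo_inc hx hh (by norm_num : (0 : ℝ) ≤ 1 / 3) (by norm_num)
  rw [← hXdef, ← Real.sqrt_eq_rpow, ← Real.sqrt_eq_rpow] at i2
  rw [← hXdef] at i3
  have zp : ∀ n : ℕ, z ^ n = x ^ ((n : ℝ) / 6) := by
    intro n
    rw [hz, ← Real.rpow_natCast, ← Real.rpow_mul hx0.le]
    congr 1
    ring
  have e12 : x ^ ((1 : ℝ) / 2 - 1) = (z ^ 3)⁻¹ := by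
    rw [zp 3, ← Real.rpow_neg hx0.le]
    norm_num
  have e13 : x ^ ((1 : ℝ) / 3 - 1) = (z ^ 4)⁻¹ := by
    rw [zp 4, ← Real.rpow_neg hx0.le]
    norm_num
  have e56 : x ^ (-(5 / 6) : ℝ) = (z ^ 5)⁻¹ := by
    rw [zp 5, ← Real.rpow_neg hx0.le]
    norm_num
  rw [e12] at i2
  rw [e13] at i3
  rw [e56] at hcnt
  have hMp : (M : ℝ) ^ (1 / 10 : ℝ) ≤ z ^ (1 / 10 : ℝ) / t := by
    have h6 : T ^ (1 / 10 : ℝ) = z ^ (1 / 10 : ℝ) / t := by
      rw [hT, Real.div_rpow hz0.le (by positivity), ← Real.rpow_natCast t 10,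
        ← Real.rpow_mul ht0.le]
      norm_num
    rw [← h6]
    exact Real.rpow_le_rpow hM0.le hMT (by norm_num)
  have hzz : x ^ (3 / 20 : ℝ) * z ^ (1 / 10 : ℝ) = z := by
    rw [hz, ← Real.rpow_mul hx0.le, ← Real.rpow_add hx0]
    norm_num
  set Y : ℝ := z / t with hY
  have hY0 : 0 < Y := by positivity
  have a1 : |qX - α * √X * s3 - β * X ^ (1 / 3 : ℝ) * s2| ≤ 20 * C * Y := by
    refine h1'.trans ?_
    have h4 : X ^ (3 / 20 : ℝ) ≤ 2 * x ^ (3 / 20 : ℝ) := by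
      calc X ^ (3 / 20 : ℝ) ≤ (2 * x) ^ (3 / 20 : ℝ) :=
            Real.rpow_le_rpow hX0.le (by linarith) (by norm_num)
        _ = 2 ^ (3 / 20 : ℝ) * x ^ (3 / 20 : ℝ) := Real.mul_rpow (by norm_num) hx0.le
        _ ≤ 2 * x ^ (3 / 20 : ℝ) := by
          apply mul_le_mul_of_nonneg_right _ (by positivity)
          calc (2 : ℝ) ^ (3 / 20 : ℝ) ≤ 2 ^ (1 : ℝ) :=
                Real.rpow_le_rpow_of_exponent_le (by norm_num) (by norm_num)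
            _ = 2 := Real.rpow_one 2
    calc 10 * C * X ^ (3 / 20 : ℝ) * (M : ℝ) ^ (1 / 10 : ℝ) ≤
        10 * C * (2 * x ^ (3 / 20 : ℝ)) * (z ^ (1 / 10 : ℝ) / t) := by
          apply mul_le_mul _ hMp (by positivity) (by positivity)
          exact mul_le_mul_of_nonneg_left h4 (by positivity)
      _ = 20 * C * ((x ^ (3 / 20 : ℝ) * z ^ (1 / 10 : ℝ)) / t) := by ring
      _ = 20 * C * Y := by rw [hzz]
  have a2 : |q - α * √x * s3 - β * x ^ (1 / 3 : ℝ) * s2| ≤ 10 * C * Y := by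
    refine h1.trans ?_
    calc 10 * C * x ^ (3 / 20 : ℝ) * (M : ℝ) ^ (1 / 10 : ℝ) ≤
        10 * C * x ^ (3 / 20 : ℝ) * (z ^ (1 / 10 : ℝ) / t) :=
          mul_le_mul_of_nonneg_left hMp (by positivity)
      _ = 10 * C * ((x ^ (3 / 20 : ℝ) * z ^ (1 / 10 : ℝ)) / t) := by ring
      _ = 10 * C * Y := by rw [hzz]
  have a3 : |rX - r| ≤ 32768 * Y := by
    refine hcnt.trans ?_
    have h5 : h * (z ^ 5)⁻¹ ≤ z / t ^ 240 := by
      calc h * (z ^ 5)⁻¹ ≤ z ^ 6 / t ^ 240 * (z ^ 5)⁻¹ :=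
            mul_le_mul_of_nonneg_right hhx (by positivity)
        _ = z / t ^ 240 := by field_simp
    have h6 : t ^ 120 ≤ Y := by
      rw [hY, le_div_iff₀ ht0]
      calc t ^ 120 * t = t ^ 121 := by ring
        _ ≤ t ^ 240 := htp _ _ (by norm_num)
        _ ≤ z := htz
    have h7 : t ^ 120 * (z / t ^ 240) ≤ Y := by
      rw [hY]
      have : t ^ 120 * (z / t ^ 240) = z / t ^ 120 := by field_simp
      rw [this]
      apply div_le_div_of_nonneg_left hz0.le ht0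
      calc t = t ^ 1 := (pow_one t).symm
        _ ≤ t ^ 120 := htp _ _ (by norm_num)
    have h8 : t ^ 120 * (h * (z ^ 5)⁻¹) ≤ t ^ 120 * (z / t ^ 240) :=
      mul_le_mul_of_nonneg_left h5 (by positivity)
    have h9 : (128 * t ^ 60) ^ 2 * (1 + h * (z ^ 5)⁻¹) =
        16384 * (t ^ 120 + t ^ 120 * (h * (z ^ 5)⁻¹)) := by ring
    rw [h9]
    linarith
  have hT2 : ∀ n : ℕ, 1 ≤ n → z / t ^ n ≤ Y := by
    intro n hn
    rw [hY]
    apply div_le_div_of_nonneg_left hz0.le ht0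
    calc t = t ^ 1 := (pow_one t).symm
      _ ≤ t ^ n := htp _ _ hn
  have a4 : |α * (√X - √x) * (S3 - s3)| ≤ 4 * |α| * Y := by
    rw [abs_mul, abs_mul, abs_of_nonneg i2.1]
    have h4 : (√X - √x) * |S3 - s3| ≤ 4 * Y := by
      have h5 : √X - √x ≤ z ^ 6 / t ^ 240 * (z ^ 3)⁻¹ :=
        i2.2.trans (mul_le_mul_of_nonneg_right hhx (by positivity))
      have h6 : |S3 - s3| ≤ 4 / T ^ 2 := by
        refine h3.trans ?_
        rw [div_le_div_iff₀ (by positivity) (by positivity)]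
        nlinarith [mul_self_le_mul_self hT0.le h2M]
      calc (√X - √x) * |S3 - s3| ≤ (z ^ 6 / t ^ 240 * (z ^ 3)⁻¹) * (4 / T ^ 2) :=
            mul_le_mul h5 h6 (abs_nonneg _) (by positivity)
        _ = 4 * (z / t ^ 220) := by
            rw [hT]
            field_simp
        _ ≤ 4 * Y := mul_le_mul_of_nonneg_left (hT2 _ (by norm_num)) (by norm_num)
    calc |α| * (√X - √x) * |S3 - s3| = |α| * ((√X - √x) * |S3 - s3|) := by ring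
      _ ≤ |α| * (4 * Y) := mul_le_mul_of_nonneg_left h4 (abs_nonneg _)
      _ = 4 * |α| * Y := by ring
  have a5 : |β * (X ^ (1 / 3 : ℝ) - x ^ (1 / 3 : ℝ)) * (S2 - s2)| ≤ 2 * |β| * Y := by
    rw [abs_mul, abs_mul, abs_of_nonneg i3.1]
    have h4 : (X ^ (1 / 3 : ℝ) - x ^ (1 / 3 : ℝ)) * |S2 - s2| ≤ 2 * Y := by
      have h5 : X ^ (1 / 3 : ℝ) - x ^ (1 / 3 : ℝ) ≤ z ^ 6 / t ^ 240 * (z ^ 4)⁻¹ :=
        i3.2.trans (mul_le_mul_of_nonneg_right hhx (by positivity))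
      have h6 : |S2 - s2| ≤ 2 / T := by
        refine h2.trans ?_
        rw [div_le_div_iff₀ (by positivity) (by positivity)]
        linarith
      calc (X ^ (1 / 3 : ℝ) - x ^ (1 / 3 : ℝ)) * |S2 - s2| ≤
          (z ^ 6 / t ^ 240 * (z ^ 4)⁻¹) * (2 / T) :=
            mul_le_mul h5 h6 (abs_nonneg _) (by positivity)
        _ = 2 * (z / t ^ 230) := by
            rw [hT]
            field_simp
        _ ≤ 2 * Y := mul_le_mul_of_nonneg_left (hT2 _ (by norm_num)) (by norm_num)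
    calc |β| * (X ^ (1 / 3 : ℝ) - x ^ (1 / 3 : ℝ)) * |S2 - s2| =
        |β| * ((X ^ (1 / 3 : ℝ) - x ^ (1 / 3 : ℝ)) * |S2 - s2|) := by ring
      _ ≤ |β| * (2 * Y) := mul_le_mul_of_nonneg_left h4 (abs_nonneg _)
      _ = 2 * |β| * Y := by ring
  have e : rX + qX - α * S3 * √X - β * S2 * X ^ (1 / 3 : ℝ) -
      (r + q - α * S3 * √x - β * S2 * x ^ (1 / 3 : ℝ)) =
      (qX - α * √X * s3 - β * X ^ (1 / 3 : ℝ) * s2) - (q - α * √x * s3 - β * x ^ (1 / 3 : ℝ) * s2) +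
      (rX - r) - α * (√X - √x) * (S3 - s3) - β * (X ^ (1 / 3 : ℝ) - x ^ (1 / 3 : ℝ)) * (S2 - s2) := by
    ring
  rw [e]
  rw [abs_le] at a1 a2 a3 a4 a5 ⊢
  constructor
  · linarith [a1.1, a2.2, a3.1, a4.2, a5.2]
  · linarith [a1.2, a2.1, a3.2, a4.1, a5.1]

/-- the constants are the right ones -/
private theorem os_const : ∃ α β C : ℝ, 0 < C ∧ (∀ u : ℝ, 1 ≤ u →
    |(D u : ℝ) - α * √u - β * u ^ (1 / 3 : ℝ)| ≤ C * u ^ (3 / 20 : ℝ)) ∧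
    α * (∑' m : ℕ, (ArithmeticFunction.moebius m : ℝ) / (m : ℝ) ^ 3) = cA ∧
    β * (∑' m : ℕ, (ArithmeticFunction.moebius m : ℝ) / (m : ℝ) ^ 2) = cB := by
  obtain ⟨α, β, C, hC, hD⟩ := dtwo
  refine ⟨α, β, C, hC, hD, ?_⟩
  refine ident (C := 10 * C + 4 * |α| + 2 * |β|) fun x hx => (os_glob hC hD hx).trans ?_
  exact mul_le_mul_of_nonneg_left (Real.rpow_le_rpow_of_exponent_le hx (by norm_num))
    (by positivity)

theorem E_six : ∃ C : ℝ, 0 < C ∧ ∀ x : ℝ, 1 ≤ x → |E x| ≤ C * x ^ (1 / 6 : ℝ) := by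
  obtain ⟨α, β, C, hC, hD, hA, hB⟩ := os_const
  refine ⟨10 * C + 4 * |α| + 2 * |β|, by positivity, fun x hx => ?_⟩
  have h := os_glob hC hD hx
  rw [hA, hB] at h
  exact h

theorem E_osc : ∃ C : ℝ, 0 < C ∧ ∀ x T h : ℝ, 1 ≤ x → 1 ≤ T → T ≤ x ^ (1 / 6 : ℝ) → 0 ≤ h →
    h ≤ x / T → |E (x + h) - E x| ≤ C * x ^ (1 / 6 : ℝ) * T ^ (-(1 / 240) : ℝ) := by
  obtain ⟨α, β, C, hC, hD, hA, hB⟩ := os_const
  refine ⟨30 * C + 4 * |α| + 2 * |β| + 32768, by positivity, fun x T h hx hT1 hTx hh hhx => ?_⟩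
  have hx0 : 0 < x := by linarith
  have hT0 : 0 < T := by linarith
  have hTt : (T ^ (1 / 240 : ℝ)) ^ 240 = T := by
    rw [← Real.rpow_natCast, ← Real.rpow_mul hT0.le]
    norm_num
  have hz6 : (x ^ (1 / 6 : ℝ)) ^ 6 = x := by
    rw [← Real.rpow_natCast, ← Real.rpow_mul hx0.le]
    norm_num
  have h1 := os_loc hC hD hx hh (z := x ^ (1 / 6 : ℝ)) (t := T ^ (1 / 240 : ℝ)) rfl
    (Real.one_le_rpow hT1 (by norm_num)) (by rw [hTt]; exact hTx) (by rw [hTt, hz6]; exact hhx)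
  rw [hA, hB] at h1
  have e1 : (30 * C + 4 * |α| + 2 * |β| + 32768) * x ^ (1 / 6 : ℝ) * T ^ (-(1 / 240) : ℝ) =
      (30 * C + 4 * |α| + 2 * |β| + 32768) * (x ^ (1 / 6 : ℝ) / T ^ (1 / 240 : ℝ)) := by
    rw [Real.rpow_neg hT0.le]
    ring
  rw [e1]
  exact h1

end Pool.PWU
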