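import Pool.Agent.PWE.Gam

/-!
# PWU TAIL: Gamma tails with the weight e^(y/6)

p(y) = s^(k+1) y^k e^(-s y)/k! has integral 1 over (0, oo) and
int_0^oo e^(a y) p(y) dy = (1 - a/s)^(-(k+1)) for a < s (Pool.PWE.gam with B = s - a; it also gives
the integrability).
tot: (1 - 1/(6s))^(-(k+1)) >= e^((k+1)/(6s)) >= e^(L/6).
up: e^(y/6) <= e^(-b) e^(7y/6) on (b, oo), u = 7/(6s) <= 1/2, -log(1-u) <= u + u^2, k + 1 <= s L + 1:
  exponent at most -b + (s L + 1)(u + u^2) <= -b + 7L/6 + 49 L/(36 s) + 1.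
low: e^(y/6) <= e^a e^(-5y/6) on (0, a], v = 5/(6s), log(1+v) >= v - v^2/2, k + 1 >= s L:
  exponent at most a - s L (v - v^2/2) = a - 5L/6 + 25 L/(72 s).
-/

set_option autoImplicit false

open Complex Finset Filter Topology MeasureTheory

namespace Pool.PWU

/-- the Gamma integral with an exponential weight -/
theorem mgf {s a : ℝ} (ha : a < s) (k : ℕ) :
    IntegrableOn (fun y : ℝ => Real.exp (a * y) * (Real.exp (-s * y) * y ^ k)) (Set.Ioi 0) ∧
    s ^ (k + 1) / (k.factorial : ℝ) *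
      ∫ y in Set.Ioi (0 : ℝ), Real.exp (a * y) * (Real.exp (-s * y) * y ^ k) =
      (s / (s - a)) ^ (k + 1) := by
  have hk0 : (k.factorial : ℝ) ≠ 0 := by exact_mod_cast k.factorial_ne_zero
  obtain ⟨h1, h2⟩ := Pool.PWE.gam (B := s - a) (by linarith) k
  have he : (fun y : ℝ => Real.exp (a * y) * (Real.exp (-s * y) * y ^ k)) =
      fun y : ℝ => (k.factorial : ℝ) * (Real.exp (-(s - a) * y) * y ^ k / (k.factorial : ℝ)) := by
    funext y
    have h3 : Real.exp (a * y) * Real.exp (-s * y) = Real.exp (-(s - a) * y) := by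
      rw [← Real.exp_add]
      ring_nf
    rw [← mul_assoc, h3]
    field_simp
  constructor
  · rw [he]
    exact h1.const_mul _
  · rw [he, integral_const_mul, h2]
    have h4 : s - a ≠ 0 := by intro h; linarith
    rw [div_pow, div_pow, one_pow]
    field_simp

theorem wt_int {s : ℝ} (hs : 3 ≤ s) (k : ℕ) :
    IntegrableOn (fun y : ℝ => Real.exp (y / 6) * (Real.exp (-s * y) * y ^ k)) (Set.Ioi 0) := by
  have h := (mgf (s := s) (a := 1 / 6) (by linarith) k).1
  have he : (fun y : ℝ => Real.exp (1 / 6 * y) * (Real.exp (-s * y) * y ^ k)) =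
      fun y : ℝ => Real.exp (y / 6) * (Real.exp (-s * y) * y ^ k) := by
    funext y
    rw [show 1 / 6 * y = y / 6 by ring]
  rwa [he] at h

theorem tot {s L : ℝ} {k : ℕ} (hs : 3 ≤ s) (hk : s * L ≤ k + 1) :
    Real.exp (L / 6) ≤ s ^ (k + 1) / (k.factorial : ℝ) *
      ∫ y in Set.Ioi (0 : ℝ), Real.exp (y / 6) * (Real.exp (-s * y) * y ^ k) := by
  have hs0 : 0 < s := by linarith
  have h := (mgf (s := s) (a := 1 / 6) (by linarith) k).2
  have he : (fun y : ℝ => Real.exp (1 / 6 * y) * (Real.exp (-s * y) * y ^ k)) =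
      fun y : ℝ => Real.exp (y / 6) * (Real.exp (-s * y) * y ^ k) := by
    funext y
    rw [show 1 / 6 * y = y / 6 by ring]
  rw [he] at h
  rw [h]
  have hsr : 0 < s - 1 / 6 := by linarith
  -- s/(s-1/6) >= exp(1/(6s))
  have h1 : Real.exp (1 / (6 * s)) ≤ s / (s - 1 / 6) := by
    have h2 := Real.add_one_le_exp (-(1 / (6 * s)))
    have h3 : -(1 / (6 * s)) + 1 = (s - 1 / 6) / s := by
      field_simp
      ring
    rw [h3, Real.exp_neg] at h2
    have h4 : 0 < (s - 1 / 6) / s := by positivity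
    have h5 := inv_anti₀ h4 h2
    rwa [inv_inv, inv_div] at h5
  calc Real.exp (L / 6) ≤ Real.exp (((k + 1 : ℕ) : ℝ) * (1 / (6 * s))) := by
        apply Real.exp_le_exp.2
        rw [mul_one_div, div_le_div_iff₀ (by norm_num) (by positivity)]
        push_cast
        nlinarith
    _ = Real.exp (1 / (6 * s)) ^ (k + 1) := Real.exp_nat_mul _ _
    _ ≤ (s / (s - 1 / 6)) ^ (k + 1) := pow_le_pow_left₀ (Real.exp_pos _).le h1 _

theorem up {s L b : ℝ} {k : ℕ} (hs : 3 ≤ s) (hb : 0 ≤ b) (hk : (k : ℝ) ≤ s * L) :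
    s ^ (k + 1) / (k.factorial : ℝ) *
      ∫ y in Set.Ioi b, Real.exp (y / 6) * (Real.exp (-s * y) * y ^ k) ≤
      Real.exp (L / 6 + (L - b) + 49 / 36 * (L / s) + 1) := by
  have hs0 : 0 < s := by linarith
  have hc0 : 0 < s ^ (k + 1) / (k.factorial : ℝ) := by
    have : 0 < (k.factorial : ℝ) := by exact_mod_cast k.factorial_pos
    positivity
  obtain ⟨i1, h⟩ := mgf (s := s) (a := 7 / 6) (by linarith) k
  have hW := wt_int hs k
  have m1 : (∫ y in Set.Ioi b, Real.exp (y / 6) * (Real.exp (-s * y) * y ^ k)) ≤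
      ∫ y in Set.Ioi b, Real.exp (-b) * (Real.exp (7 / 6 * y) * (Real.exp (-s * y) * y ^ k)) := by
    refine setIntegral_mono_on (hW.mono_set (Set.Ioi_subset_Ioi hb))
      ((i1.mono_set (Set.Ioi_subset_Ioi hb)).const_mul _) measurableSet_Ioi fun y hy => ?_
    have hy0 : b < y := hy
    have hy1 : 0 < y := by linarith
    have hw : 0 ≤ Real.exp (-s * y) * y ^ k := by positivity
    have e : Real.exp (y / 6) ≤ Real.exp (-b) * Real.exp (7 / 6 * y) := by
      rw [← Real.exp_add]
      apply Real.exp_le_exp.2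
      linarith
    have e' := mul_le_mul_of_nonneg_right e hw
    rwa [mul_assoc (Real.exp (-b))] at e'
  have m2 : (∫ y in Set.Ioi b, Real.exp (7 / 6 * y) * (Real.exp (-s * y) * y ^ k)) ≤
      ∫ y in Set.Ioi (0 : ℝ), Real.exp (7 / 6 * y) * (Real.exp (-s * y) * y ^ k) := by
    refine setIntegral_mono_set i1 ?_ (Eventually.of_forall fun y hy => ?_)
    · refine (ae_restrict_iff' measurableSet_Ioi).2 (Eventually.of_forall fun y hy => ?_)
      have hy1 : 0 < y := hy
      simp only [Pi.zero_apply]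
      positivity
    · exact lt_of_le_of_lt hb hy
  have hsr : 0 < s - 7 / 6 := by linarith
  have h1 : s / (s - 7 / 6) ≤ Real.exp (7 / (6 * s) + 49 / (36 * s ^ 2)) := by
    obtain ⟨u, hu⟩ : ∃ u : ℝ, u = 7 / (6 * s) := ⟨_, rfl⟩
    have hu0 : 0 < u := by rw [hu]; positivity
    have hu1 : u ≤ 7 / 18 := by
      rw [hu, div_le_div_iff₀ (by positivity) (by norm_num)]
      linarith
    have e1 : s / (s - 7 / 6) = 1 / (1 - u) := by
      have : s - 7 / 6 = s * (1 - u) := by
        rw [hu]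
        field_simp
      rw [this]
      field_simp
    have e2 : 7 / (6 * s) + 49 / (36 * s ^ 2) = u + u ^ 2 := by
      rw [hu]
      field_simp
      ring
    rw [e1, e2]
    have h2 : 1 + (u + u ^ 2) + (u + u ^ 2) ^ 2 / 2 ≤ Real.exp (u + u ^ 2) := by
      have := Real.quadratic_le_exp_of_nonneg (show 0 ≤ u + u ^ 2 by positivity)
      linarith
    refine le_trans ?_ h2
    rw [div_le_iff₀ (by linarith)]
    nlinarith [mul_pos hu0 hu0, mul_pos (mul_pos hu0 hu0) hu0, mul_pos (mul_pos (mul_pos hu0 hu0) hu0) hu0, mul_nonneg (mul_pos hu0 hu0).le (by linarith : (0 : ℝ) ≤ 7 / 18 - u), mul_nonneg (mul_pos (mul_pos hu0 hu0) hu0).le (by linarith : (0 : ℝ) ≤ 7 / 18 - u), mul_nonneg (mul_pos (mul_pos (mul_pos hu0 hu0) hu0) hu0).le (by linarith : (0 : ℝ) ≤ 7 / 18 - u)]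
  calc s ^ (k + 1) / (k.factorial : ℝ) *
        ∫ y in Set.Ioi b, Real.exp (y / 6) * (Real.exp (-s * y) * y ^ k)
      ≤ s ^ (k + 1) / (k.factorial : ℝ) * (Real.exp (-b) *
        ∫ y in Set.Ioi (0 : ℝ), Real.exp (7 / 6 * y) * (Real.exp (-s * y) * y ^ k)) := by
        apply mul_le_mul_of_nonneg_left _ hc0.le
        refine m1.trans ?_
        rw [integral_const_mul]
        exact mul_le_mul_of_nonneg_left m2 (Real.exp_pos _).le
    _ = Real.exp (-b) * (s / (s - 7 / 6)) ^ (k + 1) := by rw [← h]; ring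
    _ ≤ Real.exp (-b) * Real.exp (7 / (6 * s) + 49 / (36 * s ^ 2)) ^ (k + 1) := by
        apply mul_le_mul_of_nonneg_left _ (Real.exp_pos _).le
        exact pow_le_pow_left₀ (by positivity) h1 _
    _ = Real.exp (-b + (k + 1) * (7 / (6 * s) + 49 / (36 * s ^ 2))) := by
        rw [← Real.exp_nat_mul, ← Real.exp_add]
        push_cast
        rfl
    _ ≤ Real.exp (L / 6 + (L - b) + 49 / 36 * (L / s) + 1) := by
        apply Real.exp_le_exp.2
        have h3 : ((k : ℝ) + 1) * (7 / (6 * s) + 49 / (36 * s ^ 2)) ≤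
            (s * L + 1) * (7 / (6 * s) + 49 / (36 * s ^ 2)) :=
          mul_le_mul_of_nonneg_right (by linarith) (by positivity)
        have h4 : (s * L + 1) * (7 / (6 * s) + 49 / (36 * s ^ 2)) =
            7 / 6 * L + 49 / 36 * (L / s) + (7 / (6 * s) + 49 / (36 * s ^ 2)) := by
          field_simp
        have h5 : 7 / (6 * s) ≤ 7 / 18 := by
          rw [div_le_div_iff₀ (by positivity) (by norm_num)]
          linarith
        have h6 : 49 / (36 * s ^ 2) ≤ 49 / 324 := by
          rw [div_le_div_iff₀ (by positivity) (by norm_num)]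
          nlinarith
        rw [h4] at h3
        linarith

theorem low {s L a : ℝ} {k : ℕ} (hs : 3 ≤ s) (hL : 0 ≤ L) (ha : 0 ≤ a) (hk : s * L ≤ k + 1) :
    s ^ (k + 1) / (k.factorial : ℝ) *
      ∫ y in Set.Ioc (0 : ℝ) a, Real.exp (y / 6) * (Real.exp (-s * y) * y ^ k) ≤
      Real.exp (L / 6 - (L - a) + 25 / 72 * (L / s)) := by
  have hs0 : 0 < s := by linarith
  have hc0 : 0 < s ^ (k + 1) / (k.factorial : ℝ) := by
    have : 0 < (k.factorial : ℝ) := by exact_mod_cast k.factorial_pos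
    positivity
  obtain ⟨i1, h⟩ := mgf (s := s) (a := -(5 / 6)) (by linarith) k
  have hW := wt_int hs k
  have m1 : (∫ y in Set.Ioc (0 : ℝ) a, Real.exp (y / 6) * (Real.exp (-s * y) * y ^ k)) ≤
      ∫ y in Set.Ioc (0 : ℝ) a,
        Real.exp a * (Real.exp (-(5 / 6) * y) * (Real.exp (-s * y) * y ^ k)) := by
    refine setIntegral_mono_on (hW.mono_set Set.Ioc_subset_Ioi_self)
      ((i1.mono_set Set.Ioc_subset_Ioi_self).const_mul _) measurableSet_Ioc fun y hy => ?_
    have hy1 : 0 < y := hy.1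
    have hy2 : y ≤ a := hy.2
    have hw : 0 ≤ Real.exp (-s * y) * y ^ k := by positivity
    have e : Real.exp (y / 6) ≤ Real.exp a * Real.exp (-(5 / 6) * y) := by
      rw [← Real.exp_add]
      apply Real.exp_le_exp.2
      linarith
    have e' := mul_le_mul_of_nonneg_right e hw
    rwa [mul_assoc (Real.exp a)] at e'
  have m2 : (∫ y in Set.Ioc (0 : ℝ) a, Real.exp (-(5 / 6) * y) * (Real.exp (-s * y) * y ^ k)) ≤
      ∫ y in Set.Ioi (0 : ℝ), Real.exp (-(5 / 6) * y) * (Real.exp (-s * y) * y ^ k) := by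
    refine setIntegral_mono_set i1 ?_ (Eventually.of_forall fun y hy => ?_)
    · refine (ae_restrict_iff' measurableSet_Ioi).2 (Eventually.of_forall fun y hy => ?_)
      have hy1 : 0 < y := hy
      simp only [Pi.zero_apply]
      positivity
    · exact hy.1
  have hsr : 0 < s - -(5 / 6) := by linarith
  obtain ⟨v, hv⟩ : ∃ v : ℝ, v = 5 / (6 * s) := ⟨_, rfl⟩
  have hv0 : 0 < v := by rw [hv]; positivity
  have hv1 : v ≤ 5 / 18 := by
    rw [hv, div_le_div_iff₀ (by positivity) (by norm_num)]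
    linarith
  have h1 : s / (s - -(5 / 6)) ≤ Real.exp (-(v - v ^ 2 / 2)) := by
    have e1 : s / (s - -(5 / 6)) = 1 / (1 + v) := by
      have : s - -(5 / 6) = s * (1 + v) := by
        rw [hv]
        field_simp
        ring
      rw [this]
      field_simp
    rw [e1, Real.exp_neg, one_div]
    apply inv_anti₀ (Real.exp_pos _)
    -- exp(v - v^2/2) <= 1 + v
    have h2 : v - v ^ 2 / 2 ≤ Real.log (1 + v) := by
      have h3 := Real.le_log_one_add_of_nonneg hv0.le
      refine le_trans ?_ h3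
      rw [le_div_iff₀ (by linarith)]
      nlinarith [mul_pos hv0 hv0, mul_pos (mul_pos hv0 hv0) hv0]
    calc Real.exp (v - v ^ 2 / 2) ≤ Real.exp (Real.log (1 + v)) := Real.exp_le_exp.2 h2
      _ = 1 + v := Real.exp_log (by linarith)
  calc s ^ (k + 1) / (k.factorial : ℝ) *
        ∫ y in Set.Ioc (0 : ℝ) a, Real.exp (y / 6) * (Real.exp (-s * y) * y ^ k)
      ≤ s ^ (k + 1) / (k.factorial : ℝ) * (Real.exp a *
        ∫ y in Set.Ioi (0 : ℝ), Real.exp (-(5 / 6) * y) * (Real.exp (-s * y) * y ^ k)) := by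
        apply mul_le_mul_of_nonneg_left _ hc0.le
        refine m1.trans ?_
        rw [integral_const_mul]
        exact mul_le_mul_of_nonneg_left m2 (Real.exp_pos _).le
    _ = Real.exp a * (s / (s - -(5 / 6))) ^ (k + 1) := by rw [← h]; ring
    _ ≤ Real.exp a * Real.exp (-(v - v ^ 2 / 2)) ^ (k + 1) := by
        apply mul_le_mul_of_nonneg_left _ (Real.exp_pos _).le
        exact pow_le_pow_left₀ (by positivity) h1 _
    _ = Real.exp (a - (k + 1) * (v - v ^ 2 / 2)) := by
        rw [← Real.exp_nat_mul, ← Real.exp_add]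
        push_cast
        ring_nf
    _ ≤ Real.exp (L / 6 - (L - a) + 25 / 72 * (L / s)) := by
        apply Real.exp_le_exp.2
        have h3 : s * L * (v - v ^ 2 / 2) ≤ ((k : ℝ) + 1) * (v - v ^ 2 / 2) :=
          mul_le_mul_of_nonneg_right hk (by nlinarith)
        have h4 : s * L * (v - v ^ 2 / 2) = 5 / 6 * L - 25 / 72 * (L / s) := by
          rw [hv]
          field_simp
          ring
        rw [h4] at h3
        linarith

end Pool.PWU
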