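import Pool.Agent.Helper76.PWF.Unf
import Pool.Agent.Helper76.PWF.Int
import Pool.Agent.PWE.Step
import Pool.Agent.PWU.Osc
import Pool.Agent.PWU.Tail

/-!
# PWU PT: one good point in every [X, X T], uniformly in T
-/

set_option autoImplicit false

open Complex Finset Filter Topology MeasureTheory

namespace Pool.PWU

open Pool.PWE

theorem E_eqU : Pool.PWF.E = Pool.PWE.E := by
  funext x
  have hQ : Pool.PWF.Q x = (Pool.PWE.Q x : ℝ) := by
    unfold Pool.PWF.Q Pool.PWE.Q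
    rw [Nat.cast_inj]
    apply congrArg
    ext n
    simp only [Finset.mem_filter, Finset.mem_Icc]
    constructor
    · rintro ⟨h1, h2⟩
      exact ⟨h1, h2.2⟩
    · rintro ⟨h1, h2⟩
      exact ⟨h1, by have := h1.1; omega, h2⟩
  unfold Pool.PWF.E Pool.PWE.E
  rw [hQ, Real.sqrt_eq_rpow]
  rfl

/-- helper76's uniform bound in the variable y = log x -/
theorem J_bd : ∃ C : ℝ, 0 ≤ C ∧ ∀ (k : ℕ) (s : ℝ), 2 ≤ s →
    |s ^ (k + 1) / (k.factorial : ℝ) *
      ∫ y in Set.Ioi (0 : ℝ), E (Real.exp y) * (Real.exp (-s * y) * y ^ k)| ≤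
      C * s ^ 3 * Real.exp ((k : ℝ) / s * (1 / 6 - 3 / (10 * s))) := by
  obtain ⟨C, hC⟩ := Pool.PWF.all_unif
  refine ⟨|C|, abs_nonneg _, fun k s hs => ?_⟩
  have h := hC k s hs
  rw [Pool.PWF.mean_eq] at h
  have hJ : (k.factorial : ℝ) * Pool.PWF.Jc (fun y => Pool.PWF.E (Real.exp y)) s k =
      ∫ y in Set.Ioi (0 : ℝ), Pool.PWF.E (Real.exp y) * (Real.exp (-s * y) * y ^ k) := by
    have hk0 : (k.factorial : ℝ) ≠ 0 := by exact_mod_cast k.factorial_ne_zero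
    unfold Pool.PWF.Jc
    rw [integral_div]
    rw [mul_div_cancel₀ _ hk0]
    refine setIntegral_congr_fun measurableSet_Ioi fun y _ => ?_
    simp only
    ring
  rw [hJ, E_eqU, ← Real.exp_mul] at h
  refine h.trans ?_
  apply mul_le_mul_of_nonneg_right _ (Real.exp_pos _).le
  apply mul_le_mul_of_nonneg_right (le_abs_self C) (by positivity)

theorem split {F : ℝ → ℝ} {ℓ t : ℝ} (hF : IntegrableOn F (Set.Ioi 0)) (hℓ : 0 ≤ ℓ) (ht : 0 ≤ t) :
    ∫ y in Set.Ioi (0 : ℝ), F y = (∫ y in Set.Ioc (0 : ℝ) ℓ, F y) +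
      (∫ y in Set.Ioc ℓ (ℓ + t), F y) + ∫ y in Set.Ioi (ℓ + t), F y := by
  have h1 : Set.Ioc (0 : ℝ) ℓ ∪ Set.Ioi ℓ = Set.Ioi 0 := Set.Ioc_union_Ioi_eq_Ioi hℓ
  have h2 : Set.Ioc ℓ (ℓ + t) ∪ Set.Ioi (ℓ + t) = Set.Ioi ℓ :=
    Set.Ioc_union_Ioi_eq_Ioi (by linarith)
  have i1 : IntegrableOn F (Set.Ioc 0 ℓ) := hF.mono_set Set.Ioc_subset_Ioi_self
  have i2 : IntegrableOn F (Set.Ioi ℓ) := hF.mono_set (Set.Ioi_subset_Ioi hℓ)
  have i3 : IntegrableOn F (Set.Ioc ℓ (ℓ + t)) := i2.mono_set Set.Ioc_subset_Ioi_self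
  have i4 : IntegrableOn F (Set.Ioi (ℓ + t)) := i2.mono_set (Set.Ioi_subset_Ioi (by linarith))
  rw [← h1, setIntegral_union (Set.Ioc_disjoint_Ioi le_rfl) measurableSet_Ioi i1 i2, ← h2,
    setIntegral_union (Set.Ioc_disjoint_Ioi le_rfl) measurableSet_Ioi i3 i4]
  ring

theorem core {f : ℝ → ℝ} (hf : Measurable f) {C6 : ℝ} (hC6 : 0 ≤ C6)
    (hb : ∀ y : ℝ, 0 ≤ y → |f y| ≤ C6 * Real.exp (y / 6)) {s L ℓ t ρ : ℝ} {k : ℕ} (hs : 3 ≤ s)
    (hℓ : 0 ≤ ℓ) (ht : 0 ≤ t) (hL : L = ℓ + t / 2) (hk1 : (k : ℝ) ≤ s * L) (hk2 : s * L ≤ k + 1)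
    (hρ0 : 0 ≤ ρ) (hρ1 : ρ ≤ 1)
    (hpos : ∀ y : ℝ, ℓ < y → y ≤ ℓ + t → ρ * Real.exp (y / 6) ≤ f y) :
    ρ * Real.exp (L / 6) ≤ s ^ (k + 1) / (k.factorial : ℝ) *
        (∫ y in Set.Ioi (0 : ℝ), f y * (Real.exp (-s * y) * y ^ k)) +
      (C6 + 1) * (Real.exp (L / 6 - t / 2 + 25 / 72 * (L / s)) +
        Real.exp (L / 6 - t / 2 + 49 / 36 * (L / s) + 1)) := by
  have hs0 : 0 < s := by linarith
  have hL0 : 0 ≤ L := by rw [hL]; positivity
  have hc0 : 0 < s ^ (k + 1) / (k.factorial : ℝ) := by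
    have : 0 < (k.factorial : ℝ) := by exact_mod_cast k.factorial_pos
    positivity
  have hW := wt_int hs k
  have hfw : IntegrableOn (fun y : ℝ => f y * (Real.exp (-s * y) * y ^ k)) (Set.Ioi 0) := by
    refine Integrable.mono' (hW.const_mul C6) ?_ ?_
    · exact (hf.mul (by fun_prop)).aestronglyMeasurable
    · refine (ae_restrict_iff' measurableSet_Ioi).2 (Eventually.of_forall fun y hy => ?_)
      have hy0 : 0 < y := hy
      have hw : 0 ≤ Real.exp (-s * y) * y ^ k := by positivity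
      rw [Real.norm_eq_abs, abs_mul, abs_of_nonneg hw]
      have h1 := mul_le_mul_of_nonneg_right (hb y hy0.le) hw
      rwa [mul_assoc C6] at h1
  have s1 := split hfw hℓ ht
  have s2 := split hW hℓ ht
  have m1 : -C6 * (∫ y in Set.Ioc (0 : ℝ) ℓ, Real.exp (y / 6) * (Real.exp (-s * y) * y ^ k)) ≤
      ∫ y in Set.Ioc (0 : ℝ) ℓ, f y * (Real.exp (-s * y) * y ^ k) := by
    rw [← integral_const_mul]
    refine setIntegral_mono_on ((hW.mono_set Set.Ioc_subset_Ioi_self).const_mul _)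
      (hfw.mono_set Set.Ioc_subset_Ioi_self) measurableSet_Ioc fun y hy => ?_
    have hy0 : 0 < y := hy.1
    have hw : 0 ≤ Real.exp (-s * y) * y ^ k := by positivity
    have h1 := (abs_le.1 (hb y hy0.le)).1
    rw [← mul_assoc]
    apply mul_le_mul_of_nonneg_right _ hw
    linarith
  have m3 : -C6 * (∫ y in Set.Ioi (ℓ + t), Real.exp (y / 6) * (Real.exp (-s * y) * y ^ k)) ≤
      ∫ y in Set.Ioi (ℓ + t), f y * (Real.exp (-s * y) * y ^ k) := by
    rw [← integral_const_mul]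
    refine setIntegral_mono_on ((hW.mono_set (Set.Ioi_subset_Ioi (by positivity))).const_mul _)
      (hfw.mono_set (Set.Ioi_subset_Ioi (by positivity))) measurableSet_Ioi fun y hy => ?_
    have hy0 : 0 < y := lt_of_le_of_lt (by positivity) (show ℓ + t < y from hy)
    have hw : 0 ≤ Real.exp (-s * y) * y ^ k := by positivity
    have h1 := (abs_le.1 (hb y hy0.le)).1
    rw [← mul_assoc]
    apply mul_le_mul_of_nonneg_right _ hw
    linarith
  have m2 : ρ * (∫ y in Set.Ioc ℓ (ℓ + t), Real.exp (y / 6) * (Real.exp (-s * y) * y ^ k)) ≤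
      ∫ y in Set.Ioc ℓ (ℓ + t), f y * (Real.exp (-s * y) * y ^ k) := by
    have hsub : Set.Ioc ℓ (ℓ + t) ⊆ Set.Ioi 0 := fun y hy => lt_of_le_of_lt hℓ hy.1
    rw [← integral_const_mul]
    refine setIntegral_mono_on ((hW.mono_set hsub).const_mul _)
      (hfw.mono_set hsub) measurableSet_Ioc fun y hy => ?_
    have hy0 : 0 < y := lt_of_le_of_lt hℓ hy.1
    have hw : 0 ≤ Real.exp (-s * y) * y ^ k := by positivity
    rw [← mul_assoc]
    exact mul_le_mul_of_nonneg_right (hpos y hy.1 hy.2) hw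
  have t0 := tot (s := s) (L := L) (k := k) hs hk2
  have t1 := low (s := s) (L := L) (a := ℓ) (k := k) hs hL0 hℓ hk2
  have t3 := up (s := s) (L := L) (b := ℓ + t) (k := k) hs (by positivity) hk1
  have e1 : L / 6 - (L - ℓ) + 25 / 72 * (L / s) = L / 6 - t / 2 + 25 / 72 * (L / s) := by
    rw [hL]; ring
  have e3 : L / 6 + (L - (ℓ + t)) + 49 / 36 * (L / s) + 1 =
      L / 6 - t / 2 + 49 / 36 * (L / s) + 1 := by
    rw [hL]; ring
  rw [e1] at t1
  rw [e3] at t3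
  rw [s2] at t0
  rw [s1]
  set c0 := s ^ (k + 1) / (k.factorial : ℝ) with hc0'
  set W1 := ∫ y in Set.Ioc (0 : ℝ) ℓ, Real.exp (y / 6) * (Real.exp (-s * y) * y ^ k) with hW1
  set W2 := ∫ y in Set.Ioc ℓ (ℓ + t), Real.exp (y / 6) * (Real.exp (-s * y) * y ^ k) with hW2
  set W3 := ∫ y in Set.Ioi (ℓ + t), Real.exp (y / 6) * (Real.exp (-s * y) * y ^ k) with hW3
  set F1 := ∫ y in Set.Ioc (0 : ℝ) ℓ, f y * (Real.exp (-s * y) * y ^ k) with hF1
  set F2 := ∫ y in Set.Ioc ℓ (ℓ + t), f y * (Real.exp (-s * y) * y ^ k) with hF2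
  set F3 := ∫ y in Set.Ioi (ℓ + t), f y * (Real.exp (-s * y) * y ^ k) with hF3
  have n1 : 0 ≤ c0 * W1 := by
    apply mul_nonneg hc0.le
    refine setIntegral_nonneg measurableSet_Ioc fun y hy => ?_
    have hy0 : 0 < y := hy.1
    positivity
  have n3 : 0 ≤ c0 * W3 := by
    apply mul_nonneg hc0.le
    refine setIntegral_nonneg measurableSet_Ioi fun y hy => ?_
    have hy0 : 0 < y := lt_of_le_of_lt (by positivity) (show ℓ + t < y from hy)
    positivity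
  have k1 := mul_le_mul_of_nonneg_left m1 hc0.le
  have k2 := mul_le_mul_of_nonneg_left m2 hc0.le
  have k3 := mul_le_mul_of_nonneg_left m3 hc0.le
  have k0 := mul_le_mul_of_nonneg_left t0 hρ0
  have q1 : (C6 + 1) * (c0 * W1) ≤ (C6 + 1) * Real.exp (L / 6 - t / 2 + 25 / 72 * (L / s)) :=
    mul_le_mul_of_nonneg_left t1 (by positivity)
  have q3 : (C6 + 1) * (c0 * W3) ≤
      (C6 + 1) * Real.exp (L / 6 - t / 2 + 49 / 36 * (L / s) + 1) :=
    mul_le_mul_of_nonneg_left t3 (by positivity)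
  have r1 : ρ * (c0 * W1) ≤ c0 * W1 := mul_le_of_le_one_left n1 hρ1
  have r3 : ρ * (c0 * W3) ≤ c0 * W3 := mul_le_of_le_one_left n3 hρ1
  nlinarith

theorem pt : ∃ K : ℝ, 300 ≤ K ∧ ∀ X T : ℝ, K ≤ X → Real.log X ^ K ≤ T → T ≤ X ^ (1 / 20 : ℝ) →
    ∃ y : ℝ, X ≤ y ∧ y ≤ X * T ∧ |E y| ≤ y ^ (1 / 6 : ℝ) * T ^ (-(1 / 100) : ℝ) := by
  obtain ⟨C6, hC6, h6⟩ := E_six
  obtain ⟨CJ, hCJ, hJ⟩ := J_bd
  obtain ⟨Cs, hCs, hsign⟩ := E_sign
  obtain ⟨B, hB⟩ : ∃ B : ℝ, B = 3375 * CJ + 4 * (C6 + 1) := ⟨_, rfl⟩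
  have hB0 : 0 < B := by rw [hB]; positivity
  refine ⟨300 + Real.exp (B + 2) + Cs ^ 8, by
    have := Real.exp_pos (B + 2)
    have := pow_pos hCs 8
    linarith, fun X T hX hT1 hT2 => ?_⟩
  obtain ⟨K, hK⟩ : ∃ K : ℝ, K = 300 + Real.exp (B + 2) + Cs ^ 8 := ⟨_, rfl⟩
  rw [← hK] at hX hT1
  have hK300 : 300 ≤ K := by rw [hK]; have := Real.exp_pos (B + 2); have := pow_pos hCs 8; linarith
  have hX0 : 0 < X := by linarith
  have hX1 : 1 ≤ X := by linarith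
  set ℓ := Real.log X with hℓ
  have hℓB : B + 2 ≤ ℓ := by
    rw [hℓ, Real.le_log_iff_exp_le hX0]
    have := pow_pos hCs 8
    linarith
  have hℓ0 : 0 < ℓ := by linarith
  have hT0 : 0 < T := lt_of_lt_of_le (by positivity) hT1
  set t := Real.log T with ht
  have ht1 : 1 ≤ t := by
    have h1 : Real.log (ℓ ^ K) ≤ t := Real.log_le_log (by positivity) hT1
    rw [Real.log_rpow hℓ0] at h1
    have h2 : Real.log 2 ≤ Real.log ℓ := Real.log_le_log (by norm_num) (by linarith)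
    have h3 := Real.log_two_gt_d9
    nlinarith
  have htℓ : t ≤ ℓ / 20 := by
    have h1 : t ≤ Real.log (X ^ (1 / 20 : ℝ)) := Real.log_le_log hT0 hT2
    rw [Real.log_rpow hX0] at h1
    linarith
  have hTt : Real.exp t = T := Real.exp_log hT0
  have hXℓ : Real.exp ℓ = X := Real.exp_log hX0
  have hT1' : 1 ≤ T := by
    rw [← hTt]
    exact Real.one_le_exp (by linarith)
  obtain ⟨L, hL⟩ : ∃ L : ℝ, L = ℓ + t / 2 := ⟨_, rfl⟩
  have hL0 : 0 < L := by rw [hL]; linarith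
  obtain ⟨s, hs⟩ : ∃ s : ℝ, s = 10 * L / t := ⟨_, rfl⟩
  have hst : s * t = 10 * L := by
    rw [hs]
    field_simp
  have hs3 : 3 ≤ s := by
    have : 3 * t ≤ s * t := by rw [hst, hL]; linarith
    exact le_of_mul_le_mul_right this (by linarith)
  have hs0 : 0 < s := by linarith
  have hLs : L / s = t / 10 := by
    rw [div_eq_iff hs0.ne']
    linarith
  have hs15 : s ≤ 15 * ℓ := by
    have h1 : s * 1 ≤ s * t := mul_le_mul_of_nonneg_left ht1 hs0.le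
    rw [hst, hL] at h1
    linarith
  have hT100 : ℓ ^ 3 ≤ T ^ (1 / 100 : ℝ) := by
    have h1 : (ℓ ^ K) ^ (1 / 100 : ℝ) ≤ T ^ (1 / 100 : ℝ) :=
      Real.rpow_le_rpow (by positivity) hT1 (by norm_num)
    rw [← Real.rpow_mul hℓ0.le] at h1
    have h2 : ℓ ^ (3 : ℝ) ≤ ℓ ^ (K * (1 / 100)) :=
      Real.rpow_le_rpow_of_exponent_le (by linarith) (by linarith)
    rw [show (3 : ℝ) = ((3 : ℕ) : ℝ) by norm_num, Real.rpow_natCast] at h2
    exact h2.trans h1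
  have hTB : B < T ^ (1 / 100 : ℝ) := by
    have h1 : ℓ ≤ ℓ ^ 3 := by nlinarith [mul_pos hℓ0 hℓ0]
    linarith
  by_contra hcon
  push Not at hcon
  -- the sign is constant
  have hbig : ∀ x, X ≤ x → x ≤ X * T → Cs < |E x| := by
    intro x hx1 hx2
    refine lt_of_le_of_lt ?_ (hcon x hx1 hx2)
    have hx0 : 0 < x := by linarith
    have h1 : X ^ (1 / 6 : ℝ) ≤ x ^ (1 / 6 : ℝ) := Real.rpow_le_rpow hX0.le hx1 (by norm_num)
    have h2 : (X ^ (1 / 20 : ℝ)) ^ (-(1 / 100) : ℝ) ≤ T ^ (-(1 / 100) : ℝ) :=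
      Real.rpow_le_rpow_of_nonpos hT0 hT2 (by norm_num)
    rw [← Real.rpow_mul hX0.le] at h2
    have h3 : Cs ≤ X ^ (1 / 8 : ℝ) := by
      have h4 : Cs ^ 8 ≤ X := by have := Real.exp_pos (B + 2); linarith
      have h5 : (Cs ^ 8) ^ (1 / 8 : ℝ) ≤ X ^ (1 / 8 : ℝ) :=
        Real.rpow_le_rpow (by positivity) h4 (by norm_num)
      rw [← Real.rpow_natCast, ← Real.rpow_mul hCs.le] at h5
      norm_num at h5 ⊢
      exact h5
    calc Cs ≤ X ^ (1 / 8 : ℝ) := h3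
      _ ≤ X ^ (1 / 6 + 1 / 20 * (-(1 / 100)) : ℝ) :=
          Real.rpow_le_rpow_of_exponent_le hX1 (by norm_num)
      _ = X ^ (1 / 6 : ℝ) * X ^ (1 / 20 * (-(1 / 100)) : ℝ) := Real.rpow_add hX0 _ _
      _ ≤ x ^ (1 / 6 : ℝ) * T ^ (-(1 / 100) : ℝ) := by
          apply mul_le_mul h1 h2 (by positivity) (by positivity)
  have hS := hsign X (X * T) hX1 hbig
  -- constants
  have hk1 : ((⌊s * L⌋₊ : ℕ) : ℝ) ≤ s * L := Nat.floor_le (by positivity)
  have hk2 : s * L ≤ (⌊s * L⌋₊ : ℕ) + 1 := (Nat.lt_floor_add_one _).le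
  set k := ⌊s * L⌋₊ with hk
  have hρ0 : 0 ≤ T ^ (-(1 / 100) : ℝ) := by positivity
  have hρ1 : T ^ (-(1 / 100) : ℝ) ≤ 1 := Real.rpow_le_one_of_one_le_of_nonpos hT1' (by norm_num)
  have hmeas : Measurable fun y : ℝ => E (Real.exp y) := E_measurable.comp Real.measurable_exp
  have hb6 : ∀ y : ℝ, 0 ≤ y → |E (Real.exp y)| ≤ C6 * Real.exp (y / 6) := by
    intro y hy
    have h1 := h6 (Real.exp y) (Real.one_le_exp hy)
    rwa [← Real.exp_mul, mul_one_div] at h1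
  have hmid : ∀ y : ℝ, ℓ < y → y ≤ ℓ + t → X ≤ Real.exp y ∧ Real.exp y ≤ X * T := by
    intro y h1 h2
    constructor
    · rw [← hXℓ]
      exact Real.exp_le_exp.2 h1.le
    · rw [← hXℓ, ← hTt, ← Real.exp_add]
      exact Real.exp_le_exp.2 h2
  have hlow : ∀ y : ℝ, ℓ < y → y ≤ ℓ + t →
      T ^ (-(1 / 100) : ℝ) * Real.exp (y / 6) ≤ |E (Real.exp y)| := by
    intro y h1 h2
    obtain ⟨h3, h4⟩ := hmid y h1 h2
    have h5 := (hcon (Real.exp y) h3 h4).le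
    rwa [← Real.exp_mul, mul_one_div, mul_comm] at h5
  have hJk := hJ k s (by linarith)
  have hfinal : T ^ (-(1 / 100) : ℝ) * Real.exp (L / 6) ≤
      CJ * s ^ 3 * Real.exp ((k : ℝ) / s * (1 / 6 - 3 / (10 * s))) +
      (C6 + 1) * (Real.exp (L / 6 - t / 2 + 25 / 72 * (L / s)) +
        Real.exp (L / 6 - t / 2 + 49 / 36 * (L / s) + 1)) := by
    rcases hS with hS | hS
    · have h1 := core hmeas hC6.le hb6 hs3 hℓ0.le (by linarith) hL hk1 hk2 hρ0 hρ1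
        (fun y h1 h2 => by
          have h3 := hlow y h1 h2
          rwa [abs_of_pos (hS _ (hmid y h1 h2).1 (hmid y h1 h2).2)] at h3)
      have h2 := (abs_le.1 hJk).2
      linarith
    · have h1 := core (f := fun y => -E (Real.exp y)) hmeas.neg hC6.le
        (fun y hy => by rw [abs_neg]; exact hb6 y hy) hs3 hℓ0.le (by linarith) hL hk1 hk2 hρ0 hρ1
        (fun y h1 h2 => by
          have h3 := hlow y h1 h2
          rwa [abs_of_neg (hS _ (hmid y h1 h2).1 (hmid y h1 h2).2)] at h3)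
      have h2 := (abs_le.1 hJk).1
      have h3 : (∫ y in Set.Ioi (0 : ℝ), -E (Real.exp y) * (Real.exp (-s * y) * y ^ k)) =
          -∫ y in Set.Ioi (0 : ℝ), E (Real.exp y) * (Real.exp (-s * y) * y ^ k) := by
        rw [← integral_neg]
        refine setIntegral_congr_fun measurableSet_Ioi fun y _ => ?_
        ring
      rw [h3, mul_neg] at h1
      linarith
  rw [hLs] at hfinal
  have g1 : Real.exp ((k : ℝ) / s * (1 / 6 - 3 / (10 * s))) ≤
      Real.exp (L / 6) * T ^ (-(3 / 100) : ℝ) := by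
    rw [Real.rpow_def_of_pos hT0, ← Real.exp_add]
    apply Real.exp_le_exp.2
    rw [← ht]
    have h1 : (k : ℝ) / s ≤ L := by
      rw [div_le_iff₀ hs0]
      linarith
    have h2 : 0 ≤ 1 / 6 - 3 / (10 * s) := by
      rw [sub_nonneg, div_le_div_iff₀ (by positivity) (by norm_num)]
      linarith
    have h3 : L * (3 / (10 * s)) = t * (3 / 100) := by
      have : L * (3 / (10 * s)) = 3 / 10 * (L / s) := by
        field_simp
      rw [this, hLs]
      ring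
    have h4 := mul_le_mul_of_nonneg_right h1 h2
    linarith
  have g2 : Real.exp (L / 6 - t / 2 + 25 / 72 * (t / 10)) ≤
      Real.exp (L / 6) * T ^ (-(2 / 100) : ℝ) := by
    rw [Real.rpow_def_of_pos hT0, ← Real.exp_add]
    apply Real.exp_le_exp.2
    rw [← ht]
    linarith
  have g3 : Real.exp (L / 6 - t / 2 + 49 / 36 * (t / 10) + 1) ≤
      3 * (Real.exp (L / 6) * T ^ (-(2 / 100) : ℝ)) := by
    rw [Real.exp_add _ 1, mul_comm]
    apply mul_le_mul (by have := Real.exp_one_lt_d9; linarith) _ (Real.exp_pos _).le (by norm_num)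
    rw [Real.rpow_def_of_pos hT0, ← Real.exp_add]
    apply Real.exp_le_exp.2
    rw [← ht]
    linarith
  have g4 : s ^ 3 ≤ 3375 * T ^ (1 / 100 : ℝ) := by
    have h1 : s ^ 3 ≤ (15 * ℓ) ^ 3 := pow_le_pow_left₀ hs0.le hs15 3
    rw [mul_pow] at h1
    norm_num at h1 ⊢
    linarith
  have g5 : T ^ (1 / 100 : ℝ) * T ^ (-(3 / 100) : ℝ) = T ^ (-(2 / 100) : ℝ) := by
    rw [← Real.rpow_add hT0]
    norm_num
  have g6 : T ^ (1 / 100 : ℝ) * T ^ (-(2 / 100) : ℝ) = T ^ (-(1 / 100) : ℝ) := by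
    rw [← Real.rpow_add hT0]
    norm_num
  have hEL : 0 < Real.exp (L / 6) := Real.exp_pos _
  have hT2' : 0 < T ^ (-(2 / 100) : ℝ) := by positivity
  have g7 : CJ * s ^ 3 * Real.exp ((k : ℝ) / s * (1 / 6 - 3 / (10 * s))) ≤
      3375 * CJ * (Real.exp (L / 6) * T ^ (-(2 / 100) : ℝ)) := by
    calc CJ * s ^ 3 * Real.exp ((k : ℝ) / s * (1 / 6 - 3 / (10 * s)))
        ≤ CJ * (3375 * T ^ (1 / 100 : ℝ)) * (Real.exp (L / 6) * T ^ (-(3 / 100) : ℝ)) := by
          apply mul_le_mul _ g1 (Real.exp_pos _).le (by positivity)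
          exact mul_le_mul_of_nonneg_left g4 hCJ
      _ = 3375 * CJ * (Real.exp (L / 6) * T ^ (-(2 / 100) : ℝ)) := by rw [← g5]; ring
  have g8 : T ^ (-(1 / 100) : ℝ) * Real.exp (L / 6) ≤
      B * (Real.exp (L / 6) * T ^ (-(2 / 100) : ℝ)) := by
    refine hfinal.trans ?_
    have h1 : (C6 + 1) * (Real.exp (L / 6 - t / 2 + 25 / 72 * (t / 10)) +
        Real.exp (L / 6 - t / 2 + 49 / 36 * (t / 10) + 1)) ≤
        (C6 + 1) * (4 * (Real.exp (L / 6) * T ^ (-(2 / 100) : ℝ))) :=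
      mul_le_mul_of_nonneg_left (by linarith) (by positivity)
    rw [hB]
    linarith
  rw [← g6] at g8
  have g9 : 0 < Real.exp (L / 6) * T ^ (-(2 / 100) : ℝ) := by positivity
  have g10 : T ^ (1 / 100 : ℝ) * (Real.exp (L / 6) * T ^ (-(2 / 100) : ℝ)) ≤
      B * (Real.exp (L / 6) * T ^ (-(2 / 100) : ℝ)) := by linarith
  have g11 := le_of_mul_le_mul_right g10 g9
  linarith

end Pool.PWU
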