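import Pool.Agent.PWU.Pt

/-!
# PWU RET: E returns to [-1, 0] in every interval [X, X^(5/2)]

The mean of `E(x)` for `log x` with the Gamma law of parameters `k + 1`, `s = 2` is
`-1/2 + O(theta^k)` (helper76, PWF/Int, `main`). `E` has upward jumps of size 1 and is continuous
otherwise. If it takes no value in `[-1, 0]` on `[X, X^(5/2)]`, then it is positive on the whole
interval or less than `-1` on the whole interval; both contradict the mean (the tails are
small: `E = O(x^(1/6))`).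
-/

set_option autoImplicit false

open Complex Finset Filter Topology MeasureTheory

namespace Pool.PWU

open Pool.PWE

/-- locally `Q y` is `Q x` or `Q x - 1` -/
theorem Q_loc {x : ℝ} (hx : 1 ≤ x) : ∀ᶠ y in 𝓝 x, Q y = Q x ∨ Q y + 1 = Q x := by
  have h1 : ∀ᶠ y in 𝓝 x, y < (⌊x⌋₊ : ℝ) + 1 := eventually_lt_nhds (Nat.lt_floor_add_one x)
  have h2 : ∀ᶠ y in 𝓝 x, (⌊x⌋₊ : ℝ) - 1 < y := by
    apply eventually_gt_nhds
    have := Nat.floor_le (show 0 ≤ x by linarith)
    linarith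
  filter_upwards [h1, h2] with y hy1 hy2
  have hn : 1 ≤ ⌊x⌋₊ := Nat.le_floor (by exact_mod_cast hx)
  obtain ⟨m, hm⟩ : ∃ m : ℕ, ⌊x⌋₊ = m + 1 := ⟨⌊x⌋₊ - 1, by omega⟩
  rw [hm] at hy1 hy2
  push_cast at hy1 hy2
  have hy0 : 0 ≤ y := by
    have : (0 : ℝ) ≤ m := Nat.cast_nonneg m
    linarith
  have hf1 : m ≤ ⌊y⌋₊ := Nat.le_floor (by linarith)
  have hf2 : ⌊y⌋₊ < m + 2 := (Nat.floor_lt hy0).2 (by push_cast; linarith)
  have hcases : ⌊y⌋₊ = m + 1 ∨ ⌊y⌋₊ = m := by omega
  rcases hcases with hc | hc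
  · left
    unfold Q
    rw [hc, hm]
  · unfold Q
    rw [hc, hm]
    have hI : Icc 1 (m + 1) = insert (m + 1) (Icc 1 m) := by
      ext z
      simp only [Finset.mem_Icc, Finset.mem_insert]
      omega
    rw [hI, Finset.filter_insert]
    split_ifs with hP
    · right
      rw [Finset.card_insert_of_notMem]
      simp
    · left
      rfl

/-- the continuous part -/
theorem G_cont {x : ℝ} (hx : 1 ≤ x) :
    ContinuousAt (fun y : ℝ => cA * √y + cB * y ^ (1 / 3 : ℝ)) x := by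
  have h1 : ContinuousAt (fun y : ℝ => y ^ (1 / 3 : ℝ)) x :=
    Real.continuousAt_rpow_const _ _ (Or.inl (by linarith))
  exact (continuousAt_const.mul Real.continuous_sqrt.continuousAt).add (continuousAt_const.mul h1)

/-- if `E` avoids `[-1, 0]`, it has one sign -/
theorem E_avoid {a b : ℝ} (ha : 1 ≤ a) (h : ∀ x, a ≤ x → x ≤ b → ¬ (-1 ≤ E x ∧ E x ≤ 0)) :
    (∀ x, a ≤ x → x ≤ b → 0 < E x) ∨ (∀ x, a ≤ x → x ≤ b → E x < -1) := by
  rcases lt_or_ge b a with hab | hab
  · left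
    intro x h1 h2
    linarith
  have hloc : ∀ x ∈ Set.Icc a b, ∀ᶠ y in 𝓝[Set.Icc a b] x, (0 < E y ↔ 0 < E x) := by
    intro x hx
    have hx1 : 1 ≤ x := ha.trans hx.1
    have hQ := Q_loc hx1
    have hG := G_cont hx1
    have hE : ∀ y, E y = (Q y : ℝ) - (cA * √y + cB * y ^ (1 / 3 : ℝ)) := by
      intro y
      unfold E
      ring
    rcases lt_or_ge 0 (E x) with hpos | hneg
    · have hG1 := (Metric.continuousAt_iff'.1 hG) (E x) hpos
      have hG2 : ∀ᶠ y in 𝓝 x, (y ∈ Set.Icc a b → (0 < E y ↔ 0 < E x)) := by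
        filter_upwards [hQ, hG1] with y hy1 hy2 hy3
        rw [Real.dist_eq] at hy2
        have hy4 := abs_lt.1 hy2
        have h5 : -1 < E y := by
          rw [hE y]
          rw [hE x] at hpos hy4
          rcases hy1 with hy1 | hy1
          · rw [hy1]
            linarith [hy4.2]
          · have : (Q y : ℝ) + 1 = Q x := by exact_mod_cast hy1
            linarith [hy4.2]
        have h6 := h y hy3.1 hy3.2
        have h7 : 0 < E y := by
          by_contra hc
          push Not at hc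
          exact h6 ⟨h5.le, hc⟩
        exact ⟨fun _ => hpos, fun _ => h7⟩
      rw [eventually_nhdsWithin_iff]
      exact hG2
    · have hx2 := h x hx.1 hx.2
      have hlt : E x < -1 := by
        by_contra hc
        push Not at hc
        exact hx2 ⟨hc, hneg⟩
      have hG1 := (Metric.continuousAt_iff'.1 hG) (-1 - E x) (by linarith)
      rw [eventually_nhdsWithin_iff]
      filter_upwards [hQ, hG1] with y hy1 hy2 hy3
      rw [Real.dist_eq] at hy2
      have hy4 := abs_lt.1 hy2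
      have h5 : E y < -1 := by
        rw [hE y]
        rw [hE x] at hy4 hlt
        rcases hy1 with hy1 | hy1
        · rw [hy1]
          linarith [hy4.1]
        · have : (Q y : ℝ) + 1 = Q x := by exact_mod_cast hy1
          linarith [hy4.1]
      constructor
      · intro h6
        linarith
      · intro h6
        linarith
  have hcont : ContinuousOn (fun x : ℝ => decide (0 < E x)) (Set.Icc a b) := by
    intro x hx
    refine ContinuousWithinAt.congr_of_eventuallyEq continuousWithinAt_const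
      (f := fun _ : ℝ => decide (0 < E x)) ?_ rfl
    filter_upwards [hloc x hx] with y hy
    simp only [hy]
  have hconst : ∀ x ∈ Set.Icc a b, decide (0 < E x) = decide (0 < E a) := by
    intro x hx
    exact isPreconnected_Icc.constant hcont hx ⟨le_rfl, hab⟩
  rcases lt_or_ge 0 (E a) with hpos | hneg
  · left
    intro x h1 h2
    have := hconst x ⟨h1, h2⟩
    rw [decide_eq_decide] at this
    exact this.2 hpos
  · right
    intro x h1 h2
    have h3 := hconst x ⟨h1, h2⟩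
    rw [decide_eq_decide] at h3
    have h4 : ¬ 0 < E x := fun h5 => absurd (h3.1 h5) (not_lt.2 hneg)
    by_contra hc
    push Not at hc
    exact h x h1 h2 ⟨hc, not_lt.1 h4⟩

theorem mgfR {s a : ℝ} (ha : a < s) (k : ℕ) :
    IntegrableOn (fun y : ℝ => Real.exp (a * y) * (Real.exp (-s * y) * y ^ k)) (Set.Ioi 0) ∧
    s ^ (k + 1) / (k.factorial : ℝ) *
      ∫ y in Set.Ioi (0 : ℝ), Real.exp (a * y) * (Real.exp (-s * y) * y ^ k) =
      (s / (s - a)) ^ (k + 1) := by
  have hk0 : (k.factorial : ℝ) ≠ 0 := by exact_mod_cast k.factorial_ne_zero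
  obtain ⟨h1, h2⟩ := Pool.PWE.gam (B := s - a) (by linarith) k
  have he : (fun y : ℝ => Real.exp (a * y) * (Real.exp (-s * y) * y ^ k)) =
      fun y : ℝ => (k.factorial : ℝ) * (Real.exp (-(s - a) * y) * y ^ k / (k.factorial : ℝ)) := by
    funext y
    have h3 : Real.exp (a * y) * Real.exp (-s * y) = Real.exp (-(s - a) * y) := by
      rw [← Real.exp_add]
      ring_nf
    rw [← mul_assoc, h3]
    field_simp
  constructor
  · rw [he]
    exact h1.const_mul _
  · rw [he, integral_const_mul, h2]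
    have h4 : s - a ≠ 0 := by intro h; linarith
    rw [div_pow, div_pow, one_pow]
    field_simp

/-- upper tail at `s = 2` -/
theorem upR {b : ℝ} {k : ℕ} (hb : 0 ≤ b) :
    (2 : ℝ) ^ (k + 1) / (k.factorial : ℝ) *
      ∫ y in Set.Ioi b, Real.exp (y / 6) * (Real.exp (-2 * y) * y ^ k) ≤
      Real.exp (-(19 / 30 * b)) * (5 / 3 : ℝ) ^ (k + 1) := by
  have hc0 : 0 < (2 : ℝ) ^ (k + 1) / (k.factorial : ℝ) := by
    have : 0 < (k.factorial : ℝ) := by exact_mod_cast k.factorial_pos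
    positivity
  obtain ⟨i1, h⟩ := mgfR (s := 2) (a := 4 / 5) (by norm_num) k
  obtain ⟨i0, -⟩ := mgfR (s := 2) (a := 1 / 6) (by norm_num) k
  have i0' : IntegrableOn (fun y : ℝ => Real.exp (y / 6) * (Real.exp (-2 * y) * y ^ k))
      (Set.Ioi 0) := by
    refine i0.congr_fun (fun y _ => ?_) measurableSet_Ioi
    simp only
    rw [show 1 / 6 * y = y / 6 by ring]
  have m1 : (∫ y in Set.Ioi b, Real.exp (y / 6) * (Real.exp (-2 * y) * y ^ k)) ≤
      ∫ y in Set.Ioi b, Real.exp (-(19 / 30 * b)) *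
        (Real.exp (4 / 5 * y) * (Real.exp (-2 * y) * y ^ k)) := by
    refine setIntegral_mono_on (i0'.mono_set (Set.Ioi_subset_Ioi hb))
      ((i1.mono_set (Set.Ioi_subset_Ioi hb)).const_mul _) measurableSet_Ioi fun y hy => ?_
    have hy0 : b < y := hy
    have hy1 : 0 < y := by linarith
    have hw : 0 ≤ Real.exp (-2 * y) * y ^ k := by positivity
    have e : Real.exp (y / 6) ≤ Real.exp (-(19 / 30 * b)) * Real.exp (4 / 5 * y) := by
      rw [← Real.exp_add]
      apply Real.exp_le_exp.2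
      linarith
    have e' := mul_le_mul_of_nonneg_right e hw
    rwa [mul_assoc (Real.exp (-(19 / 30 * b)))] at e'
  have m2 : (∫ y in Set.Ioi b, Real.exp (4 / 5 * y) * (Real.exp (-2 * y) * y ^ k)) ≤
      ∫ y in Set.Ioi (0 : ℝ), Real.exp (4 / 5 * y) * (Real.exp (-2 * y) * y ^ k) := by
    refine setIntegral_mono_set i1 ?_ (Eventually.of_forall fun y hy => ?_)
    · refine (ae_restrict_iff' measurableSet_Ioi).2 (Eventually.of_forall fun y hy => ?_)
      have hy1 : 0 < y := hy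
      simp only [Pi.zero_apply]
      positivity
    · exact lt_of_le_of_lt hb hy
  calc (2 : ℝ) ^ (k + 1) / (k.factorial : ℝ) *
        ∫ y in Set.Ioi b, Real.exp (y / 6) * (Real.exp (-2 * y) * y ^ k)
      ≤ (2 : ℝ) ^ (k + 1) / (k.factorial : ℝ) * (Real.exp (-(19 / 30 * b)) *
        ∫ y in Set.Ioi (0 : ℝ), Real.exp (4 / 5 * y) * (Real.exp (-2 * y) * y ^ k)) := by
        apply mul_le_mul_of_nonneg_left _ hc0.le
        refine m1.trans ?_
        rw [integral_const_mul]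
        exact mul_le_mul_of_nonneg_left m2 (Real.exp_pos _).le
    _ = Real.exp (-(19 / 30 * b)) * (2 / (2 - 4 / 5)) ^ (k + 1) := by rw [← h]; ring
    _ = Real.exp (-(19 / 30 * b)) * (5 / 3 : ℝ) ^ (k + 1) := by norm_num

/-- lower tail at `s = 2` -/
theorem lowR {a : ℝ} {k : ℕ} :
    (2 : ℝ) ^ (k + 1) / (k.factorial : ℝ) *
      ∫ y in Set.Ioc (0 : ℝ) a, Real.exp (y / 6) * (Real.exp (-2 * y) * y ^ k) ≤
      Real.exp (7 / 6 * a) * (2 / 3 : ℝ) ^ (k + 1) := by
  have hc0 : 0 < (2 : ℝ) ^ (k + 1) / (k.factorial : ℝ) := by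
    have : 0 < (k.factorial : ℝ) := by exact_mod_cast k.factorial_pos
    positivity
  obtain ⟨i1, h⟩ := mgfR (s := 2) (a := -1) (by norm_num) k
  obtain ⟨i0, -⟩ := mgfR (s := 2) (a := 1 / 6) (by norm_num) k
  have i0' : IntegrableOn (fun y : ℝ => Real.exp (y / 6) * (Real.exp (-2 * y) * y ^ k))
      (Set.Ioi 0) := by
    refine i0.congr_fun (fun y _ => ?_) measurableSet_Ioi
    simp only
    rw [show 1 / 6 * y = y / 6 by ring]
  have m1 : (∫ y in Set.Ioc (0 : ℝ) a, Real.exp (y / 6) * (Real.exp (-2 * y) * y ^ k)) ≤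
      ∫ y in Set.Ioc (0 : ℝ) a, Real.exp (7 / 6 * a) *
        (Real.exp (-1 * y) * (Real.exp (-2 * y) * y ^ k)) := by
    refine setIntegral_mono_on (i0'.mono_set Set.Ioc_subset_Ioi_self)
      ((i1.mono_set Set.Ioc_subset_Ioi_self).const_mul _) measurableSet_Ioc fun y hy => ?_
    have hy1 : 0 < y := hy.1
    have hy2 : y ≤ a := hy.2
    have hw : 0 ≤ Real.exp (-2 * y) * y ^ k := by positivity
    have e : Real.exp (y / 6) ≤ Real.exp (7 / 6 * a) * Real.exp (-1 * y) := by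
      rw [← Real.exp_add]
      apply Real.exp_le_exp.2
      linarith
    have e' := mul_le_mul_of_nonneg_right e hw
    rwa [mul_assoc (Real.exp (7 / 6 * a))] at e'
  have m2 : (∫ y in Set.Ioc (0 : ℝ) a, Real.exp (-1 * y) * (Real.exp (-2 * y) * y ^ k)) ≤
      ∫ y in Set.Ioi (0 : ℝ), Real.exp (-1 * y) * (Real.exp (-2 * y) * y ^ k) := by
    refine setIntegral_mono_set i1 ?_ (Eventually.of_forall fun y hy => ?_)
    · refine (ae_restrict_iff' measurableSet_Ioi).2 (Eventually.of_forall fun y hy => ?_)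
      have hy1 : 0 < y := hy
      simp only [Pi.zero_apply]
      positivity
    · exact hy.1
  calc (2 : ℝ) ^ (k + 1) / (k.factorial : ℝ) *
        ∫ y in Set.Ioc (0 : ℝ) a, Real.exp (y / 6) * (Real.exp (-2 * y) * y ^ k)
      ≤ (2 : ℝ) ^ (k + 1) / (k.factorial : ℝ) * (Real.exp (7 / 6 * a) *
        ∫ y in Set.Ioi (0 : ℝ), Real.exp (-1 * y) * (Real.exp (-2 * y) * y ^ k)) := by
        apply mul_le_mul_of_nonneg_left _ hc0.le
        refine m1.trans ?_
        rw [integral_const_mul]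
        exact mul_le_mul_of_nonneg_left m2 (Real.exp_pos _).le
    _ = Real.exp (7 / 6 * a) * (2 / (2 - -1)) ^ (k + 1) := by rw [← h]; ring
    _ = Real.exp (7 / 6 * a) * (2 / 3 : ℝ) ^ (k + 1) := by norm_num

theorem coreR {f : ℝ → ℝ} (hf : Measurable f) {C6 : ℝ} (hC6 : 0 ≤ C6)
    (hb : ∀ y : ℝ, 0 ≤ y → |f y| ≤ C6 * Real.exp (y / 6)) {ℓ t r : ℝ} {k : ℕ}
    (hℓ : 0 ≤ ℓ) (ht : 0 ≤ t) (hr0 : 0 ≤ r) (hr1 : r ≤ 1)
    (hpos : ∀ y : ℝ, ℓ < y → y ≤ ℓ + t → r ≤ f y) :
    r ≤ (2 : ℝ) ^ (k + 1) / (k.factorial : ℝ) *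
        (∫ y in Set.Ioi (0 : ℝ), f y * (Real.exp (-2 * y) * y ^ k)) +
      (C6 + 1) * (Real.exp (7 / 6 * ℓ) * (2 / 3 : ℝ) ^ (k + 1) +
        Real.exp (-(19 / 30 * (ℓ + t))) * (5 / 3 : ℝ) ^ (k + 1)) := by
  have hc0 : 0 < (2 : ℝ) ^ (k + 1) / (k.factorial : ℝ) := by
    have : 0 < (k.factorial : ℝ) := by exact_mod_cast k.factorial_pos
    positivity
  have hW : IntegrableOn (fun y : ℝ => Real.exp (y / 6) * (Real.exp (-2 * y) * y ^ k))
      (Set.Ioi 0) := by
    refine (mgfR (s := 2) (a := 1 / 6) (by norm_num) k).1.congr_fun (fun y _ => ?_)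
      measurableSet_Ioi
    simp only
    rw [show 1 / 6 * y = y / 6 by ring]
  have hV : IntegrableOn (fun y : ℝ => Real.exp (-2 * y) * y ^ k) (Set.Ioi 0) := by
    refine (mgfR (s := 2) (a := 0) (by norm_num) k).1.congr_fun (fun y _ => ?_) measurableSet_Ioi
    simp only
    rw [zero_mul, Real.exp_zero, one_mul]
  have hVt : (2 : ℝ) ^ (k + 1) / (k.factorial : ℝ) *
      ∫ y in Set.Ioi (0 : ℝ), Real.exp (-2 * y) * y ^ k = 1 := by
    have h := (mgfR (s := 2) (a := 0) (by norm_num) k).2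
    simp only [zero_mul, Real.exp_zero, one_mul, sub_zero] at h
    rw [h]
    norm_num
  have hfw : IntegrableOn (fun y : ℝ => f y * (Real.exp (-2 * y) * y ^ k)) (Set.Ioi 0) := by
    refine Integrable.mono' (hW.const_mul C6) ?_ ?_
    · exact (hf.mul (by fun_prop)).aestronglyMeasurable
    · refine (ae_restrict_iff' measurableSet_Ioi).2 (Eventually.of_forall fun y hy => ?_)
      have hy0 : 0 < y := hy
      have hw : 0 ≤ Real.exp (-2 * y) * y ^ k := by positivity
      rw [Real.norm_eq_abs, abs_mul, abs_of_nonneg hw]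
      have h1 := mul_le_mul_of_nonneg_right (hb y hy0.le) hw
      rwa [mul_assoc C6] at h1
  have s1 := split hfw hℓ ht
  have s2 := split hV hℓ ht
  have m1 : -C6 * (∫ y in Set.Ioc (0 : ℝ) ℓ, Real.exp (y / 6) * (Real.exp (-2 * y) * y ^ k)) ≤
      ∫ y in Set.Ioc (0 : ℝ) ℓ, f y * (Real.exp (-2 * y) * y ^ k) := by
    rw [← integral_const_mul]
    refine setIntegral_mono_on ((hW.mono_set Set.Ioc_subset_Ioi_self).const_mul _)
      (hfw.mono_set Set.Ioc_subset_Ioi_self) measurableSet_Ioc fun y hy => ?_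
    have hy0 : 0 < y := hy.1
    have hw : 0 ≤ Real.exp (-2 * y) * y ^ k := by positivity
    have h1 := (abs_le.1 (hb y hy0.le)).1
    rw [← mul_assoc]
    apply mul_le_mul_of_nonneg_right _ hw
    linarith
  have m3 : -C6 * (∫ y in Set.Ioi (ℓ + t), Real.exp (y / 6) * (Real.exp (-2 * y) * y ^ k)) ≤
      ∫ y in Set.Ioi (ℓ + t), f y * (Real.exp (-2 * y) * y ^ k) := by
    rw [← integral_const_mul]
    refine setIntegral_mono_on ((hW.mono_set (Set.Ioi_subset_Ioi (by positivity))).const_mul _)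
      (hfw.mono_set (Set.Ioi_subset_Ioi (by positivity))) measurableSet_Ioi fun y hy => ?_
    have hy0 : 0 < y := lt_of_le_of_lt (by positivity) (show ℓ + t < y from hy)
    have hw : 0 ≤ Real.exp (-2 * y) * y ^ k := by positivity
    have h1 := (abs_le.1 (hb y hy0.le)).1
    rw [← mul_assoc]
    apply mul_le_mul_of_nonneg_right _ hw
    linarith
  have m2 : r * (∫ y in Set.Ioc ℓ (ℓ + t), Real.exp (-2 * y) * y ^ k) ≤
      ∫ y in Set.Ioc ℓ (ℓ + t), f y * (Real.exp (-2 * y) * y ^ k) := by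
    have hsub : Set.Ioc ℓ (ℓ + t) ⊆ Set.Ioi 0 := fun y hy => lt_of_le_of_lt hℓ hy.1
    rw [← integral_const_mul]
    refine setIntegral_mono_on ((hV.mono_set hsub).const_mul _)
      (hfw.mono_set hsub) measurableSet_Ioc fun y hy => ?_
    have hy0 : 0 < y := lt_of_le_of_lt hℓ hy.1
    have hw : 0 ≤ Real.exp (-2 * y) * y ^ k := by positivity
    exact mul_le_mul_of_nonneg_right (hpos y hy.1 hy.2) hw
  have v1 : (∫ y in Set.Ioc (0 : ℝ) ℓ, Real.exp (-2 * y) * y ^ k) ≤
      ∫ y in Set.Ioc (0 : ℝ) ℓ, Real.exp (y / 6) * (Real.exp (-2 * y) * y ^ k) := by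
    refine setIntegral_mono_on (hV.mono_set Set.Ioc_subset_Ioi_self)
      (hW.mono_set Set.Ioc_subset_Ioi_self) measurableSet_Ioc fun y hy => ?_
    have hy0 : 0 < y := hy.1
    have hw : 0 ≤ Real.exp (-2 * y) * y ^ k := by positivity
    have h1 : 1 ≤ Real.exp (y / 6) := Real.one_le_exp (by positivity)
    nlinarith
  have v3 : (∫ y in Set.Ioi (ℓ + t), Real.exp (-2 * y) * y ^ k) ≤
      ∫ y in Set.Ioi (ℓ + t), Real.exp (y / 6) * (Real.exp (-2 * y) * y ^ k) := by
    refine setIntegral_mono_on (hV.mono_set (Set.Ioi_subset_Ioi (by positivity)))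
      (hW.mono_set (Set.Ioi_subset_Ioi (by positivity))) measurableSet_Ioi fun y hy => ?_
    have hy0 : 0 < y := lt_of_le_of_lt (by positivity) (show ℓ + t < y from hy)
    have hw : 0 ≤ Real.exp (-2 * y) * y ^ k := by positivity
    have h1 : 1 ≤ Real.exp (y / 6) := Real.one_le_exp (by positivity)
    nlinarith
  have t1 := lowR (a := ℓ) (k := k)
  have t3 := upR (b := ℓ + t) (k := k) (by positivity)
  rw [s2] at hVt
  rw [s1]
  set c0 := (2 : ℝ) ^ (k + 1) / (k.factorial : ℝ) with hc0'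
  set W1 := ∫ y in Set.Ioc (0 : ℝ) ℓ, Real.exp (y / 6) * (Real.exp (-2 * y) * y ^ k) with hW1
  set W3 := ∫ y in Set.Ioi (ℓ + t), Real.exp (y / 6) * (Real.exp (-2 * y) * y ^ k) with hW3
  set V1 := ∫ y in Set.Ioc (0 : ℝ) ℓ, Real.exp (-2 * y) * y ^ k with hV1
  set V2 := ∫ y in Set.Ioc ℓ (ℓ + t), Real.exp (-2 * y) * y ^ k with hV2
  set V3 := ∫ y in Set.Ioi (ℓ + t), Real.exp (-2 * y) * y ^ k with hV3
  set F1 := ∫ y in Set.Ioc (0 : ℝ) ℓ, f y * (Real.exp (-2 * y) * y ^ k) with hF1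
  set F2 := ∫ y in Set.Ioc ℓ (ℓ + t), f y * (Real.exp (-2 * y) * y ^ k) with hF2
  set F3 := ∫ y in Set.Ioi (ℓ + t), f y * (Real.exp (-2 * y) * y ^ k) with hF3
  have n1 : 0 ≤ c0 * W1 := by
    apply mul_nonneg hc0.le
    refine setIntegral_nonneg measurableSet_Ioc fun y hy => ?_
    have hy0 : 0 < y := hy.1
    positivity
  have n3 : 0 ≤ c0 * W3 := by
    apply mul_nonneg hc0.le
    refine setIntegral_nonneg measurableSet_Ioi fun y hy => ?_
    have hy0 : 0 < y := lt_of_le_of_lt (by positivity) (show ℓ + t < y from hy)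
    positivity
  have k1 := mul_le_mul_of_nonneg_left m1 hc0.le
  have k2 := mul_le_mul_of_nonneg_left m2 hc0.le
  have k3 := mul_le_mul_of_nonneg_left m3 hc0.le
  have w1 := mul_le_mul_of_nonneg_left (mul_le_mul_of_nonneg_left v1 hc0.le) hr0
  have w3 := mul_le_mul_of_nonneg_left (mul_le_mul_of_nonneg_left v3 hc0.le) hr0
  have q1 : (C6 + 1) * (c0 * W1) ≤ (C6 + 1) * (Real.exp (7 / 6 * ℓ) * (2 / 3 : ℝ) ^ (k + 1)) :=
    mul_le_mul_of_nonneg_left t1 (by positivity)
  have q3 : (C6 + 1) * (c0 * W3) ≤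
      (C6 + 1) * (Real.exp (-(19 / 30 * (ℓ + t))) * (5 / 3 : ℝ) ^ (k + 1)) :=
    mul_le_mul_of_nonneg_left t3 (by positivity)
  have r1 : r * (c0 * W1) ≤ c0 * W1 := mul_le_of_le_one_left n1 hr1
  have r3 : r * (c0 * W3) ≤ c0 * W3 := mul_le_of_le_one_left n3 hr1
  have hr : r = r * (c0 * V1) + r * (c0 * V2) + r * (c0 * V3) := by
    have : r * (c0 * (V1 + V2 + V3)) = r := by rw [hVt, mul_one]
    linarith
  nlinarith

end Pool.PWU
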