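import Pool.Agent.PWU.Ret

/-!
# PWU RETF: E takes a value in [-1, 0] in every interval [X, X^(5/2)]
-/

set_option autoImplicit false

open Complex Finset Filter Topology MeasureTheory

namespace Pool.PWU

open Pool.PWE

/-- the mean at `s = 2` in the variable y = log x -/
theorem J2 : ∃ C θ : ℝ, 0 < θ ∧ θ < 1 ∧ ∀ k : ℕ,
    |(2 : ℝ) ^ (k + 1) / (k.factorial : ℝ) *
      (∫ y in Set.Ioi (0 : ℝ), E (Real.exp y) * (Real.exp (-2 * y) * y ^ k)) + 1 / 2| ≤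
      C * θ ^ k := by
  obtain ⟨C, θ, h0, h1, hC⟩ := Pool.PWF.main
  refine ⟨C, θ, h0, h1, fun k => ?_⟩
  have h := hC k 2 (by norm_num) le_rfl
  rw [Pool.PWF.mean_eq] at h
  have hJ : (k.factorial : ℝ) * Pool.PWF.Jc (fun y => Pool.PWF.E (Real.exp y)) 2 k =
      ∫ y in Set.Ioi (0 : ℝ), Pool.PWF.E (Real.exp y) * (Real.exp (-2 * y) * y ^ k) := by
    have hk0 : (k.factorial : ℝ) ≠ 0 := by exact_mod_cast k.factorial_ne_zero
    unfold Pool.PWF.Jc
    rw [integral_div]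
    rw [mul_div_cancel₀ _ hk0]
    refine setIntegral_congr_fun measurableSet_Ioi fun y _ => ?_
    simp only
    ring
  rwa [hJ, E_eqU] at h

theorem log53 : Real.log (5 / 3) ≤ 13 / 25 := by
  rw [Real.log_le_iff_le_exp (by norm_num)]
  have h1 : 1 + (13 / 50 : ℝ) + (13 / 50) ^ 2 / 2 ≤ Real.exp (13 / 50) :=
    Real.quadratic_le_exp_of_nonneg (by norm_num)
  have h2 : Real.exp (13 / 25) = Real.exp (13 / 50) * Real.exp (13 / 50) := by
    rw [← Real.exp_add]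
    norm_num
  rw [h2]
  nlinarith

theorem log32 : 39 / 100 ≤ Real.log (3 / 2) := by
  rw [Real.le_log_iff_exp_le (by norm_num)]
  have h1 : Real.exp (39 / 1000) ≤ 1000 / 961 := by
    have h2 := Real.add_one_le_exp (-(39 / 1000 : ℝ))
    rw [Real.exp_neg] at h2
    have h3 := inv_anti₀ (by norm_num : (0 : ℝ) < -(39 / 1000) + 1) h2
    rw [inv_inv] at h3
    refine h3.trans ?_
    norm_num
  have h4 : Real.exp (39 / 100) = Real.exp (39 / 1000) ^ 10 := by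
    rw [← Real.exp_nat_mul]
    norm_num
  rw [h4]
  refine (pow_le_pow_left₀ (Real.exp_pos _).le h1 10).trans ?_
  norm_num

theorem tails {ℓ : ℝ} {k : ℕ} (hk1 : (k : ℝ) ≤ 3 * ℓ) (hk2 : 3 * ℓ ≤ k + 1) (hℓ : 0 ≤ ℓ) :
    Real.exp (7 / 6 * ℓ) * (2 / 3 : ℝ) ^ (k + 1) +
      Real.exp (-(19 / 30 * (ℓ + 3 / 2 * ℓ))) * (5 / 3 : ℝ) ^ (k + 1) ≤
      3 * Real.exp (-(ℓ / 300)) := by
  have h53 := log53
  have h32 := log32
  have e1 : (2 / 3 : ℝ) ^ (k + 1) = Real.exp (-(Real.log (3 / 2) * (k + 1))) := by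
    rw [show (2 / 3 : ℝ) = (3 / 2)⁻¹ by norm_num, inv_pow, Real.exp_neg, ← Real.rpow_natCast,
      Real.rpow_def_of_pos (by norm_num)]
    push_cast
    rfl
  have e2 : (5 / 3 : ℝ) ^ (k + 1) = Real.exp (Real.log (5 / 3) * (k + 1)) := by
    rw [← Real.rpow_natCast, Real.rpow_def_of_pos (by norm_num)]
    push_cast
    rfl
  have f1 : Real.exp (7 / 6 * ℓ) * (2 / 3 : ℝ) ^ (k + 1) ≤ Real.exp (-(ℓ / 300)) := by
    rw [e1, ← Real.exp_add]
    apply Real.exp_le_exp.2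
    have g1 : 39 / 100 * (3 * ℓ) ≤ Real.log (3 / 2) * (k + 1) := by
      apply mul_le_mul h32 hk2 (by positivity) (by linarith)
    linarith
  have f2 : Real.exp (-(19 / 30 * (ℓ + 3 / 2 * ℓ))) * (5 / 3 : ℝ) ^ (k + 1) ≤
      2 * Real.exp (-(ℓ / 300)) := by
    have g0 : Real.exp (13 / 25) ≤ 2 := by
      have g3 : Real.exp (13 / 25) ≤ Real.exp (Real.log 2) := by
        apply Real.exp_le_exp.2
        have := Real.log_two_gt_d9
        linarith
      rwa [Real.exp_log (by norm_num)] at g3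
    have g1 : Real.log (5 / 3) * (k + 1) ≤ 13 / 25 * (3 * ℓ + 1) := by
      apply mul_le_mul h53 (by linarith) (by positivity) (by norm_num)
    calc Real.exp (-(19 / 30 * (ℓ + 3 / 2 * ℓ))) * (5 / 3 : ℝ) ^ (k + 1)
        ≤ Real.exp (13 / 25 + -(ℓ / 300)) := by
          rw [e2, ← Real.exp_add]
          apply Real.exp_le_exp.2
          linarith
      _ = Real.exp (13 / 25) * Real.exp (-(ℓ / 300)) := Real.exp_add _ _
      _ ≤ 2 * Real.exp (-(ℓ / 300)) := mul_le_mul_of_nonneg_right g0 (Real.exp_pos _).le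
  linarith

theorem ret : ∃ X₀ : ℝ, ∀ X : ℝ, X₀ ≤ X →
    ∃ y : ℝ, X ≤ y ∧ y ≤ X ^ (5 / 2 : ℝ) ∧ -1 ≤ E y ∧ E y ≤ 0 := by
  obtain ⟨C6, hC6, h6⟩ := E_six
  obtain ⟨C, θ, hθ0, hθ1, hJ⟩ := J2
  have hlim : Tendsto (fun ℓ : ℝ => (C6 + 1) * (3 * Real.exp (-(ℓ / 300))) +
      C * θ ^ ⌊3 * ℓ⌋₊) atTop (𝓝 0) := by
    have t1 : Tendsto (fun ℓ : ℝ => Real.exp (-(ℓ / 300))) atTop (𝓝 0) :=
      Real.tendsto_exp_neg_atTop_nhds_zero.comp (tendsto_id.atTop_div_const (by norm_num))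
    have t2 : Tendsto (fun ℓ : ℝ => θ ^ ⌊3 * ℓ⌋₊) atTop (𝓝 0) :=
      (tendsto_pow_atTop_nhds_zero_of_lt_one hθ0.le hθ1).comp
        (tendsto_nat_floor_atTop.comp (tendsto_id.const_mul_atTop (by norm_num)))
    have t3 := ((t1.const_mul 3).const_mul (C6 + 1)).add (t2.const_mul C)
    simpa using t3
  have hev : ∀ᶠ X : ℝ in atTop, (C6 + 1) * (3 * Real.exp (-(Real.log X / 300))) +
      C * θ ^ ⌊3 * Real.log X⌋₊ < 1 / 2 :=
    Real.tendsto_log_atTop.eventually (hlim.eventually_lt_const (by norm_num))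
  obtain ⟨X₀, hX₀⟩ := eventually_atTop.1 (hev.and (eventually_ge_atTop 1))
  refine ⟨X₀, fun X hX => ?_⟩
  obtain ⟨hsmall, hX1⟩ := hX₀ X hX
  have hX0 : 0 < X := by linarith
  set ℓ := Real.log X with hℓ
  have hℓ0 : 0 ≤ ℓ := Real.log_nonneg hX1
  have hXℓ : Real.exp ℓ = X := Real.exp_log hX0
  have hk1 : ((⌊3 * ℓ⌋₊ : ℕ) : ℝ) ≤ 3 * ℓ := Nat.floor_le (by positivity)
  have hk2 : 3 * ℓ ≤ (⌊3 * ℓ⌋₊ : ℕ) + 1 := (Nat.lt_floor_add_one _).le
  set k := ⌊3 * ℓ⌋₊ with hk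
  have hT := tails hk1 hk2 hℓ0
  have hT' := mul_le_mul_of_nonneg_left hT (show 0 ≤ C6 + 1 by positivity)
  have hM := abs_le.1 (hJ k)
  by_contra hcon
  push Not at hcon
  have hav := E_avoid (b := X ^ (5 / 2 : ℝ)) hX1 (fun x h1 h2 h3 =>
    absurd h3.2 (not_le.2 (hcon x h1 h2 h3.1)))
  have hmeas : Measurable fun y : ℝ => E (Real.exp y) := E_measurable.comp Real.measurable_exp
  have hb6 : ∀ y : ℝ, 0 ≤ y → |E (Real.exp y)| ≤ C6 * Real.exp (y / 6) := by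
    intro y hy
    have h1 := h6 (Real.exp y) (Real.one_le_exp hy)
    rwa [← Real.exp_mul, mul_one_div] at h1
  have hmid : ∀ y : ℝ, ℓ < y → y ≤ ℓ + 3 / 2 * ℓ →
      X ≤ Real.exp y ∧ Real.exp y ≤ X ^ (5 / 2 : ℝ) := by
    intro y h1 h2
    constructor
    · rw [← hXℓ]
      exact Real.exp_le_exp.2 h1.le
    · rw [Real.rpow_def_of_pos hX0]
      apply Real.exp_le_exp.2
      rw [← hℓ]
      linarith
  rcases hav with hS | hS
  · have h1 := coreR (k := k) hmeas hC6.le hb6 hℓ0 (t := 3 / 2 * ℓ) (by positivity) le_rfl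
      zero_le_one (fun y h1 h2 => (hS _ (hmid y h1 h2).1 (hmid y h1 h2).2).le)
    linarith [hM.2]
  · have h1 := coreR (k := k) (f := fun y => -E (Real.exp y)) hmeas.neg hC6.le
      (fun y hy => by rw [abs_neg]; exact hb6 y hy) hℓ0 (t := 3 / 2 * ℓ) (by positivity)
      zero_le_one le_rfl (fun y h1 h2 => by
        have := hS _ (hmid y h1 h2).1 (hmid y h1 h2).2
        linarith)
    have h3 : (∫ y in Set.Ioi (0 : ℝ), -E (Real.exp y) * (Real.exp (-2 * y) * y ^ k)) =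
        -∫ y in Set.Ioi (0 : ℝ), E (Real.exp y) * (Real.exp (-2 * y) * y ^ k) := by
      rw [← integral_neg]
      refine setIntegral_congr_fun measurableSet_Ioi fun y _ => ?_
      ring
    rw [h3, mul_neg] at h1
    linarith [hM.1]

end Pool.PWU
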